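import Pool.Agent.Gen.F5.X123C2Dm4.S000
import Pool.Agent.Gen.F5.X123C2Dm4.S001

set_option autoImplicit false
set_option maxRecDepth 100000

namespace Pool.Agent.Gen.F5.X123C2Dm4

open Pool.Agent.Helper72.F5

def n0 : Cl (O (nat_lit 4)) (R (nat_lit 139473))
    (p (nat_lit 0xb000c) (nat_lit 0) (p (nat_lit 0xb0004) (nat_lit 0) (p (nat_lit 0x200014) (nat_lit 1) (p (nat_lit 0x119) (nat_lit 1) (p (nat_lit 0x111) (nat_lit 0) (p (nat_lit 0x109) (nat_lit 0) (p (nat_lit 0x101) (nat_lit 0) (p (nat_lit 0xc1) (nat_lit 1) (p (nat_lit 0x81) (nat_lit 1) (p (nat_lit 0x41) (nat_lit 1) (p (nat_lit 0x109080788869a) (nat_lit 0) (p (nat_lit 0x108878706861a) (nat_lit 0) (p (nat_lit 0x8000000000000080687858a) (nat_lit 0) (p (nat_lit 0x8000000000000078605850a) (nat_lit 0) (p (nat_lit 0x10605868482) (nat_lit 0) (p (nat_lit 0x10585048402) (nat_lit 0) (p (nat_lit 0x16000c) (nat_lit 0) (p (nat_lit 0x160004) (nat_lit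 0) (p (nat_lit 0x60592) (nat_lit 0) (p (nat_lit 0x48512) (nat_lit 0) (p (nat_lit 0x50392) (nat_lit 0) (p (nat_lit 0x38312) (nat_lit 0) (p (nat_lit 0x40212) (nat_lit 0) (p (nat_lit 0x28192) (nat_lit 0) (p (nat_lit 0x30092) (nat_lit 0) (p (nat_lit 0x18012) (nat_lit 0) pn)))))))))))))))))))))))))) :=
  Cl.node (nat_lit 0xc9) (nat_lit 2) (by decide +kernel) (ClAll.succ (ClAll.succ ClAll.zero s72) s73)

def n1 : Cl (O (nat_lit 4)) (R (nat_lit 139473))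
    (p (nat_lit 0x200014) (nat_lit 0) (p (nat_lit 0x109) (nat_lit 1) (p (nat_lit 0x89) (nat_lit 1) (p (nat_lit 0xc9) (nat_lit 1) (p (nat_lit 0xc1) (nat_lit 0) (p (nat_lit 0x119) (nat_lit 1) (p (nat_lit 0xd1) (nat_lit 0) (p (nat_lit 0x81) (nat_lit 0) (p (nat_lit 0x41) (nat_lit 1) (p (nat_lit 0x109080788869a) (nat_lit 0) (p (nat_lit 0x108878706861a) (nat_lit 0) (p (nat_lit 0x8000000000000080687858a) (nat_lit 0) (p (nat_lit 0x8000000000000078605850a) (nat_lit 0) (p (nat_lit 0x10605868482) (nat_lit 0) (p (nat_lit 0x10585048402) (nat_lit 0) (p (nat_lit 0x16000c) (nat_lit 0) (p (nat_lit 0x160004) (nat_lit 0) (p (nat_lit 0x60592) (nat_lit 0) (p (nat_lit 0x48512) (nat_lit 0) (p (nat_lit 0x50392) (nat_lit 0) (p (nat_lit 0x38312) (nat_lit 0) (p (nat_lit 0x40212) (nat_lit 0) (p (nat_lit 0x28192) (nat_lit 0) (p (nat_lit 0x30092) (nat_lit 0) (p (nat_lit 0x18012) (nat_lit 0) pn)))))))))))))))))))))))))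 :=
  Cl.node (nat_lit 0xb0004) (nat_lit 2) (by decide +kernel) (ClAll.succ (ClAll.succ ClAll.zero s38) s39)

def n2 : Cl (O (nat_lit 4)) (R (nat_lit 139473))
    (p (nat_lit 0xb0004) (nat_lit 0) (p (nat_lit 0x200014) (nat_lit 1) (p (nat_lit 0x119) (nat_lit 1) (p (nat_lit 0x111) (nat_lit 0) (p (nat_lit 0x109) (nat_lit 0) (p (nat_lit 0x101) (nat_lit 0) (p (nat_lit 0xc1) (nat_lit 1) (p (nat_lit 0x81) (nat_lit 1) (p (nat_lit 0x41) (nat_lit 1) (p (nat_lit 0x109080788869a) (nat_lit 0) (p (nat_lit 0x108878706861a) (nat_lit 0) (p (nat_lit 0x8000000000000080687858a) (nat_lit 0) (p (nat_lit 0x8000000000000078605850a) (nat_lit 0) (p (nat_lit 0x10605868482) (nat_lit 0) (p (nat_lit 0x10585048402) (nat_lit 0) (p (nat_lit 0x16000c) (nat_lit 0) (p (nat_lit 0x160004) (nat_lit 0) (p (nat_lit 0x60592) (nat_lit 0) (p (nat_lit 0x48512) (nat_lit 0) (p (nat_lit 0x50392) (nat_lit 0) (p (nat_lit 0x38312) (nat_lit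 0) (p (nat_lit 0x40212) (nat_lit 0) (p (nat_lit 0x28192) (nat_lit 0) (p (nat_lit 0x30092) (nat_lit 0) (p (nat_lit 0x18012) (nat_lit 0) pn))))))))))))))))))))))))) :=
  Cl.node (nat_lit 0xb000c) (nat_lit 2) (by decide +kernel) (ClAll.succ (ClAll.succ ClAll.zero n0) s74)

def n3 : Cl (O (nat_lit 4)) (R (nat_lit 139473))
    (p (nat_lit 0xc9) (nat_lit 0) (p (nat_lit 0x89) (nat_lit 1) (p (nat_lit 0x109) (nat_lit 1) (p (nat_lit 0x101) (nat_lit 0) (p (nat_lit 0x119) (nat_lit 0) (p (nat_lit 0xd1) (nat_lit 0) (p (nat_lit 0x81) (nat_lit 0) (p (nat_lit 0x41) (nat_lit 1) (p (nat_lit 0x109080788869a) (nat_lit 0) (p (nat_lit 0x108878706861a) (nat_lit 0) (p (nat_lit 0x8000000000000080687858a) (nat_lit 0) (p (nat_lit 0x8000000000000078605850a) (nat_lit 0) (p (nat_lit 0x10605868482) (nat_lit 0) (p (nat_lit 0x10585048402) (nat_lit 0) (p (nat_lit 0x16000c) (nat_lit 0) (p (nat_lit 0x160004) (nat_lit 0) (p (nat_lit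 0x60592) (nat_lit 0) (p (nat_lit 0x48512) (nat_lit 0) (p (nat_lit 0x50392) (nat_lit 0) (p (nat_lit 0x38312) (nat_lit 0) (p (nat_lit 0x40212) (nat_lit 0) (p (nat_lit 0x28192) (nat_lit 0) (p (nat_lit 0x30092) (nat_lit 0) (p (nat_lit 0x18012) (nat_lit 0) pn)))))))))))))))))))))))) :=
  Cl.node (nat_lit 0x200014) (nat_lit 2) (by decide +kernel) (ClAll.succ (ClAll.succ ClAll.zero s27) s28)

def n4 : Cl (O (nat_lit 4)) (R (nat_lit 139473))
    (p (nat_lit 0xc9) (nat_lit 1) (p (nat_lit 0x89) (nat_lit 1) (p (nat_lit 0xc1) (nat_lit 0) (p (nat_lit 0x101) (nat_lit 1) (p (nat_lit 0x119) (nat_lit 0) (p (nat_lit 0xd1) (nat_lit 0) (p (nat_lit 0x81) (nat_lit 0) (p (nat_lit 0x41) (nat_lit 1) (p (nat_lit 0x109080788869a) (nat_lit 0) (p (nat_lit 0x108878706861a) (nat_lit 0) (p (nat_lit 0x8000000000000080687858a) (nat_lit 0) (p (nat_lit 0x8000000000000078605850a) (nat_lit 0) (p (nat_lit 0x10605868482) (nat_lit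 0) (p (nat_lit 0x10585048402) (nat_lit 0) (p (nat_lit 0x16000c) (nat_lit 0) (p (nat_lit 0x160004) (nat_lit 0) (p (nat_lit 0x60592) (nat_lit 0) (p (nat_lit 0x48512) (nat_lit 0) (p (nat_lit 0x50392) (nat_lit 0) (p (nat_lit 0x38312) (nat_lit 0) (p (nat_lit 0x40212) (nat_lit 0) (p (nat_lit 0x28192) (nat_lit 0) (p (nat_lit 0x30092) (nat_lit 0) (p (nat_lit 0x18012) (nat_lit 0) pn)))))))))))))))))))))))) :=
  Cl.node (nat_lit 0x200014) (nat_lit 2) (by decide +kernel) (ClAll.succ (ClAll.succ ClAll.zero s32) s33)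

def n5 : Cl (O (nat_lit 4)) (R (nat_lit 139473))
    (p (nat_lit 0x109) (nat_lit 1) (p (nat_lit 0x89) (nat_lit 1) (p (nat_lit 0xc9) (nat_lit 1) (p (nat_lit 0xc1) (nat_lit 0) (p (nat_lit 0x119) (nat_lit 1) (p (nat_lit 0xd1) (nat_lit 0) (p (nat_lit 0x81) (nat_lit 0) (p (nat_lit 0x41) (nat_lit 1) (p (nat_lit 0x109080788869a) (nat_lit 0) (p (nat_lit 0x108878706861a) (nat_lit 0) (p (nat_lit 0x8000000000000080687858a) (nat_lit 0) (p (nat_lit 0x8000000000000078605850a) (nat_lit 0) (p (nat_lit 0x10605868482) (nat_lit 0) (p (nat_lit 0x10585048402) (nat_lit 0) (p (nat_lit 0x16000c) (nat_lit 0) (p (nat_lit 0x160004) (nat_lit 0) (p (nat_lit 0x60592) (nat_lit 0) (p (nat_lit 0x48512) (nat_lit 0) (p (nat_lit 0x50392) (nat_lit 0) (p (nat_lit 0x38312) (nat_lit 0) (p (nat_lit 0x40212) (nat_lit 0) (p (nat_lit 0x28192) (nat_lit 0) (p (nat_lit 0x30092) (nat_lit 0) (p (nat_lit 0x18012) (nat_lit 0) pn))))))))))))))))))))))))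 :=
  Cl.node (nat_lit 0x200014) (nat_lit 2) (by decide +kernel) (ClAll.succ (ClAll.succ ClAll.zero n1) s40)

def n6 : Cl (O (nat_lit 4)) (R (nat_lit 139473))
    (p (nat_lit 0x109) (nat_lit 1) (p (nat_lit 0x89) (nat_lit 1) (p (nat_lit 0x101) (nat_lit 0) (p (nat_lit 0xc1) (nat_lit 1) (p (nat_lit 0x119) (nat_lit 1) (p (nat_lit 0xd1) (nat_lit 0) (p (nat_lit 0x81) (nat_lit 0) (p (nat_lit 0x41) (nat_lit 1) (p (nat_lit 0x109080788869a) (nat_lit 0) (p (nat_lit 0x108878706861a) (nat_lit 0) (p (nat_lit 0x8000000000000080687858a) (nat_lit 0) (p (nat_lit 0x8000000000000078605850a) (nat_lit 0) (p (nat_lit 0x10605868482) (nat_lit 0) (p (nat_lit 0x10585048402) (nat_lit 0) (p (nat_lit 0x16000c) (nat_lit 0) (p (nat_lit 0x160004) (nat_lit 0) (p (nat_lit 0x60592) (nat_lit 0) (p (nat_lit 0x48512) (nat_lit 0) (p (nat_lit 0x50392) (nat_lit 0) (p (nat_lit 0x38312) (nat_lit 0) (p (nat_lit 0x40212) (nat_lit 0) (p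 (nat_lit 0x28192) (nat_lit 0) (p (nat_lit 0x30092) (nat_lit 0) (p (nat_lit 0x18012) (nat_lit 0) pn)))))))))))))))))))))))) :=
  Cl.node (nat_lit 0x200014) (nat_lit 2) (by decide +kernel) (ClAll.succ (ClAll.succ ClAll.zero s43) s44)

def n7 : Cl (O (nat_lit 4)) (R (nat_lit 139473))
    (p (nat_lit 0x200014) (nat_lit 1) (p (nat_lit 0x119) (nat_lit 1) (p (nat_lit 0x111) (nat_lit 0) (p (nat_lit 0x109) (nat_lit 0) (p (nat_lit 0x101) (nat_lit 0) (p (nat_lit 0xc1) (nat_lit 1) (p (nat_lit 0x81) (nat_lit 1) (p (nat_lit 0x41) (nat_lit 1) (p (nat_lit 0x109080788869a) (nat_lit 0) (p (nat_lit 0x108878706861a) (nat_lit 0) (p (nat_lit 0x8000000000000080687858a) (nat_lit 0) (p (nat_lit 0x8000000000000078605850a) (nat_lit 0) (p (nat_lit 0x10605868482) (nat_lit 0) (p (nat_lit 0x10585048402) (nat_lit 0) (p (nat_lit 0x16000c) (nat_lit 0) (p (nat_lit 0x160004) (nat_lit 0) (p (nat_lit 0x60592) (nat_lit 0) (p (nat_lit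 0x48512) (nat_lit 0) (p (nat_lit 0x50392) (nat_lit 0) (p (nat_lit 0x38312) (nat_lit 0) (p (nat_lit 0x40212) (nat_lit 0) (p (nat_lit 0x28192) (nat_lit 0) (p (nat_lit 0x30092) (nat_lit 0) (p (nat_lit 0x18012) (nat_lit 0) pn)))))))))))))))))))))))) :=
  Cl.node (nat_lit 0xb0004) (nat_lit 2) (by decide +kernel) (ClAll.succ (ClAll.succ ClAll.zero n2) s75)

def n8 : Cl (O (nat_lit 4)) (R (nat_lit 139473))
    (p (nat_lit 0xc1) (nat_lit 0) (p (nat_lit 0x81) (nat_lit 1) (p (nat_lit 0x101) (nat_lit 1) (p (nat_lit 0x119) (nat_lit 0) (p (nat_lit 0xd1) (nat_lit 0) (p (nat_lit 0x89) (nat_lit 0) (p (nat_lit 0x41) (nat_lit 0) (p (nat_lit 0x109080788869a) (nat_lit 0) (p (nat_lit 0x108878706861a) (nat_lit 0) (p (nat_lit 0x8000000000000080687858a) (nat_lit 0) (p (nat_lit 0x8000000000000078605850a) (nat_lit 0) (p (nat_lit 0x10605868482) (nat_lit 0) (p (nat_lit 0x10585048402) (nat_lit 0) (p (nat_lit 0x16000c)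 (nat_lit 0) (p (nat_lit 0x160004) (nat_lit 0) (p (nat_lit 0x60592) (nat_lit 0) (p (nat_lit 0x48512) (nat_lit 0) (p (nat_lit 0x50392) (nat_lit 0) (p (nat_lit 0x38312) (nat_lit 0) (p (nat_lit 0x40212) (nat_lit 0) (p (nat_lit 0x28192) (nat_lit 0) (p (nat_lit 0x30092) (nat_lit 0) (p (nat_lit 0x18012) (nat_lit 0) pn))))))))))))))))))))))) :=
  Cl.node (nat_lit 0xc9) (nat_lit 2) (by decide +kernel) (ClAll.succ (ClAll.succ ClAll.zero s3) s4)

def n9 : Cl (O (nat_lit 4)) (R (nat_lit 139473))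
    (p (nat_lit 0x101) (nat_lit 0) (p (nat_lit 0x81) (nat_lit 1) (p (nat_lit 0xc1) (nat_lit 1) (p (nat_lit 0x119) (nat_lit 1) (p (nat_lit 0xd1) (nat_lit 0) (p (nat_lit 0x89) (nat_lit 0) (p (nat_lit 0x41) (nat_lit 0) (p (nat_lit 0x109080788869a) (nat_lit 0) (p (nat_lit 0x108878706861a) (nat_lit 0) (p (nat_lit 0x8000000000000080687858a) (nat_lit 0) (p (nat_lit 0x8000000000000078605850a) (nat_lit 0) (p (nat_lit 0x10605868482) (nat_lit 0) (p (nat_lit 0x10585048402) (nat_lit 0) (p (nat_lit 0x16000c) (nat_lit 0) (p (nat_lit 0x160004) (nat_lit 0) (p (nat_lit 0x60592) (nat_lit 0) (p (nat_lit 0x48512) (nat_lit 0) (p (nat_lit 0x50392) (nat_lit 0) (p (nat_lit 0x38312) (nat_lit 0) (p (nat_lit 0x40212) (nat_lit 0) (p (nat_lit 0x28192) (nat_lit 0) (p (nat_lit 0x30092) (nat_lit 0) (p (nat_lit 0x18012) (nat_lit 0) pn))))))))))))))))))))))) :=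
  Cl.node (nat_lit 0x109) (nat_lit 2) (by decide +kernel) (ClAll.succ (ClAll.succ ClAll.zero s8) s9)

def n10 : Cl (O (nat_lit 4)) (R (nat_lit 139473))
    (p (nat_lit 0x89) (nat_lit 1) (p (nat_lit 0x109) (nat_lit 1) (p (nat_lit 0x101) (nat_lit 0) (p (nat_lit 0x119) (nat_lit 0) (p (nat_lit 0xd1) (nat_lit 0) (p (nat_lit 0x81) (nat_lit 0) (p (nat_lit 0x41) (nat_lit 1) (p (nat_lit 0x109080788869a) (nat_lit 0) (p (nat_lit 0x108878706861a) (nat_lit 0) (p (nat_lit 0x8000000000000080687858a) (nat_lit 0) (p (nat_lit 0x8000000000000078605850a) (nat_lit 0) (p (nat_lit 0x10605868482) (nat_lit 0) (p (nat_lit 0x10585048402) (nat_lit 0) (p (nat_lit 0x16000c) (nat_lit 0) (p (nat_lit 0x160004) (nat_lit 0) (p (nat_lit 0x60592) (nat_lit 0) (p (nat_lit 0x48512) (nat_lit 0) (p (nat_lit 0x50392) (nat_lit 0) (p (nat_lit 0x38312) (nat_lit 0) (p (nat_lit 0x40212) (nat_lit 0) (p (nat_lit 0x28192) (nat_lit 0) (p (nat_lit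 0x30092) (nat_lit 0) (p (nat_lit 0x18012) (nat_lit 0) pn))))))))))))))))))))))) :=
  Cl.node (nat_lit 0xc9) (nat_lit 2) (by decide +kernel) (ClAll.succ (ClAll.succ ClAll.zero n3) s29)

def n11 : Cl (O (nat_lit 4)) (R (nat_lit 139473))
    (p (nat_lit 0x89) (nat_lit 1) (p (nat_lit 0xc1) (nat_lit 0) (p (nat_lit 0x101) (nat_lit 1) (p (nat_lit 0x119) (nat_lit 0) (p (nat_lit 0xd1) (nat_lit 0) (p (nat_lit 0x81) (nat_lit 0) (p (nat_lit 0x41) (nat_lit 1) (p (nat_lit 0x109080788869a) (nat_lit 0) (p (nat_lit 0x108878706861a) (nat_lit 0) (p (nat_lit 0x8000000000000080687858a) (nat_lit 0) (p (nat_lit 0x8000000000000078605850a) (nat_lit 0) (p (nat_lit 0x10605868482) (nat_lit 0) (p (nat_lit 0x10585048402) (nat_lit 0) (p (nat_lit 0x16000c) (nat_lit 0) (p (nat_lit 0x160004) (nat_lit 0) (p (nat_lit 0x60592) (nat_lit 0) (p (nat_lit 0x48512) (nat_lit 0) (p (nat_lit 0x50392) (nat_lit 0) (p (nat_lit 0x38312)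 (nat_lit 0) (p (nat_lit 0x40212) (nat_lit 0) (p (nat_lit 0x28192) (nat_lit 0) (p (nat_lit 0x30092) (nat_lit 0) (p (nat_lit 0x18012) (nat_lit 0) pn))))))))))))))))))))))) :=
  Cl.node (nat_lit 0xc9) (nat_lit 2) (by decide +kernel) (ClAll.succ (ClAll.succ ClAll.zero s31) n4)

def n12 : Cl (O (nat_lit 4)) (R (nat_lit 139473))
    (p (nat_lit 0x89) (nat_lit 1) (p (nat_lit 0xc9) (nat_lit 1) (p (nat_lit 0xc1) (nat_lit 0) (p (nat_lit 0x119) (nat_lit 1) (p (nat_lit 0xd1) (nat_lit 0) (p (nat_lit 0x81) (nat_lit 0) (p (nat_lit 0x41) (nat_lit 1) (p (nat_lit 0x109080788869a) (nat_lit 0) (p (nat_lit 0x108878706861a) (nat_lit 0) (p (nat_lit 0x8000000000000080687858a) (nat_lit 0) (p (nat_lit 0x8000000000000078605850a) (nat_lit 0) (p (nat_lit 0x10605868482) (nat_lit 0) (p (nat_lit 0x10585048402) (nat_lit 0) (p (nat_lit 0x16000c) (nat_lit 0) (p (nat_lit 0x160004) (nat_lit 0) (p (nat_lit 0x60592) (nat_lit 0)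 (p (nat_lit 0x48512) (nat_lit 0) (p (nat_lit 0x50392) (nat_lit 0) (p (nat_lit 0x38312) (nat_lit 0) (p (nat_lit 0x40212) (nat_lit 0) (p (nat_lit 0x28192) (nat_lit 0) (p (nat_lit 0x30092) (nat_lit 0) (p (nat_lit 0x18012) (nat_lit 0) pn))))))))))))))))))))))) :=
  Cl.node (nat_lit 0x109) (nat_lit 2) (by decide +kernel) (ClAll.succ (ClAll.succ ClAll.zero s37) n5)

def n13 : Cl (O (nat_lit 4)) (R (nat_lit 139473))
    (p (nat_lit 0x89) (nat_lit 1) (p (nat_lit 0x101) (nat_lit 0) (p (nat_lit 0xc1) (nat_lit 1) (p (nat_lit 0x119) (nat_lit 1) (p (nat_lit 0xd1) (nat_lit 0) (p (nat_lit 0x81) (nat_lit 0) (p (nat_lit 0x41) (nat_lit 1) (p (nat_lit 0x109080788869a) (nat_lit 0) (p (nat_lit 0x108878706861a) (nat_lit 0) (p (nat_lit 0x8000000000000080687858a) (nat_lit 0) (p (nat_lit 0x8000000000000078605850a) (nat_lit 0) (p (nat_lit 0x10605868482) (nat_lit 0) (p (nat_lit 0x10585048402) (nat_lit 0) (p (nat_lit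 0x16000c) (nat_lit 0) (p (nat_lit 0x160004) (nat_lit 0) (p (nat_lit 0x60592) (nat_lit 0) (p (nat_lit 0x48512) (nat_lit 0) (p (nat_lit 0x50392) (nat_lit 0) (p (nat_lit 0x38312) (nat_lit 0) (p (nat_lit 0x40212) (nat_lit 0) (p (nat_lit 0x28192) (nat_lit 0) (p (nat_lit 0x30092) (nat_lit 0) (p (nat_lit 0x18012) (nat_lit 0) pn))))))))))))))))))))))) :=
  Cl.node (nat_lit 0x109) (nat_lit 2) (by decide +kernel) (ClAll.succ (ClAll.succ ClAll.zero s42) n6)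

def n14 : Cl (O (nat_lit 4)) (R (nat_lit 139473))
    (p (nat_lit 0x89) (nat_lit 1) (p (nat_lit 0x101) (nat_lit 1) (p (nat_lit 0xc1) (nat_lit 1) (p (nat_lit 0x119) (nat_lit 1) (p (nat_lit 0xd1) (nat_lit 0) (p (nat_lit 0x81) (nat_lit 0) (p (nat_lit 0x41) (nat_lit 1) (p (nat_lit 0x109080788869a) (nat_lit 0) (p (nat_lit 0x108878706861a) (nat_lit 0) (p (nat_lit 0x8000000000000080687858a) (nat_lit 0) (p (nat_lit 0x8000000000000078605850a) (nat_lit 0) (p (nat_lit 0x10605868482) (nat_lit 0) (p (nat_lit 0x10585048402) (nat_lit 0) (p (nat_lit 0x16000c) (nat_lit 0) (p (nat_lit 0x160004) (nat_lit 0) (p (nat_lit 0x60592) (nat_lit 0) (p (nat_lit 0x48512) (nat_lit 0) (p (nat_lit 0x50392) (nat_lit 0) (p (nat_lit 0x38312) (nat_lit 0) (p (nat_lit 0x40212) (nat_lit 0) (p (nat_lit 0x28192) (nat_lit 0) (p (nat_lit 0x30092) (nat_lit 0) (p (nat_lit 0x18012) (nat_lit 0) pn))))))))))))))))))))))) :=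
  Cl.node (nat_lit 0x200014) (nat_lit 2) (by decide +kernel) (ClAll.succ (ClAll.succ ClAll.zero s46) s47)

def n15 : Cl (O (nat_lit 4)) (R (nat_lit 139473))
    (p (nat_lit 0x89) (nat_lit 1) (p (nat_lit 0x109) (nat_lit 1) (p (nat_lit 0x101) (nat_lit 0) (p (nat_lit 0x111) (nat_lit 0) (p (nat_lit 0xd1) (nat_lit 1) (p (nat_lit 0x81) (nat_lit 0) (p (nat_lit 0x41) (nat_lit 1) (p (nat_lit 0x109080788869a) (nat_lit 0) (p (nat_lit 0x108878706861a) (nat_lit 0) (p (nat_lit 0x8000000000000080687858a) (nat_lit 0) (p (nat_lit 0x8000000000000078605850a) (nat_lit 0) (p (nat_lit 0x10605868482) (nat_lit 0) (p (nat_lit 0x10585048402) (nat_lit 0) (p (nat_lit 0x16000c) (nat_lit 0) (p (nat_lit 0x160004) (nat_lit 0) (p (nat_lit 0x60592) (nat_lit 0) (p (nat_lit 0x48512) (nat_lit 0) (p (nat_lit 0x50392) (nat_lit 0) (p (nat_lit 0x38312) (nat_lit 0) (p (nat_lit 0x40212) (nat_lit 0) (p (nat_lit 0x28192) (nat_lit 0)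 (p (nat_lit 0x30092) (nat_lit 0) (p (nat_lit 0x18012) (nat_lit 0) pn))))))))))))))))))))))) :=
  Cl.node (nat_lit 0xc9) (nat_lit 2) (by decide +kernel) (ClAll.succ (ClAll.succ ClAll.zero s50) s51)

def n16 : Cl (O (nat_lit 4)) (R (nat_lit 139473))
    (p (nat_lit 0x111) (nat_lit 1) (p (nat_lit 0xd1) (nat_lit 1) (p (nat_lit 0xc9) (nat_lit 0) (p (nat_lit 0x119) (nat_lit 1) (p (nat_lit 0xc1) (nat_lit 0) (p (nat_lit 0x81) (nat_lit 1) (p (nat_lit 0x41) (nat_lit 1) (p (nat_lit 0x109080788869a) (nat_lit 0) (p (nat_lit 0x108878706861a) (nat_lit 0) (p (nat_lit 0x8000000000000080687858a) (nat_lit 0) (p (nat_lit 0x8000000000000078605850a) (nat_lit 0) (p (nat_lit 0x10605868482) (nat_lit 0) (p (nat_lit 0x10585048402) (nat_lit 0) (p (nat_lit 0x16000c) (nat_lit 0) (p (nat_lit 0x160004) (nat_lit 0) (p (nat_lit 0x60592) (nat_lit 0) (p (nat_lit 0x48512) (nat_lit 0) (p (nat_lit 0x50392) (nat_lit 0) (p (nat_lit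 0x38312) (nat_lit 0) (p (nat_lit 0x40212) (nat_lit 0) (p (nat_lit 0x28192) (nat_lit 0) (p (nat_lit 0x30092) (nat_lit 0) (p (nat_lit 0x18012) (nat_lit 0) pn))))))))))))))))))))))) :=
  Cl.node (nat_lit 0x200014) (nat_lit 2) (by decide +kernel) (ClAll.succ (ClAll.succ ClAll.zero s63) s64)

def n17 : Cl (O (nat_lit 4)) (R (nat_lit 139473))
    (p (nat_lit 0x111) (nat_lit 1) (p (nat_lit 0x109) (nat_lit 0) (p (nat_lit 0xc9) (nat_lit 1) (p (nat_lit 0x119) (nat_lit 1) (p (nat_lit 0xc1) (nat_lit 0) (p (nat_lit 0x81) (nat_lit 1) (p (nat_lit 0x41) (nat_lit 1) (p (nat_lit 0x109080788869a) (nat_lit 0) (p (nat_lit 0x108878706861a) (nat_lit 0) (p (nat_lit 0x8000000000000080687858a) (nat_lit 0) (p (nat_lit 0x8000000000000078605850a) (nat_lit 0) (p (nat_lit 0x10605868482) (nat_lit 0) (p (nat_lit 0x10585048402) (nat_lit 0) (p (nat_lit 0x16000c) (nat_lit 0) (p (nat_lit 0x160004) (nat_lit 0) (p (nat_lit 0x60592)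 (nat_lit 0) (p (nat_lit 0x48512) (nat_lit 0) (p (nat_lit 0x50392) (nat_lit 0) (p (nat_lit 0x38312) (nat_lit 0) (p (nat_lit 0x40212) (nat_lit 0) (p (nat_lit 0x28192) (nat_lit 0) (p (nat_lit 0x30092) (nat_lit 0) (p (nat_lit 0x18012) (nat_lit 0) pn))))))))))))))))))))))) :=
  Cl.node (nat_lit 0x200014) (nat_lit 2) (by decide +kernel) (ClAll.succ (ClAll.succ ClAll.zero s66) s67)

def n18 : Cl (O (nat_lit 4)) (R (nat_lit 139473))
    (p (nat_lit 0x119) (nat_lit 1) (p (nat_lit 0x111) (nat_lit 0) (p (nat_lit 0x109) (nat_lit 0) (p (nat_lit 0x101) (nat_lit 0) (p (nat_lit 0xc1) (nat_lit 1) (p (nat_lit 0x81) (nat_lit 1) (p (nat_lit 0x41) (nat_lit 1) (p (nat_lit 0x109080788869a) (nat_lit 0) (p (nat_lit 0x108878706861a) (nat_lit 0) (p (nat_lit 0x8000000000000080687858a) (nat_lit 0) (p (nat_lit 0x8000000000000078605850a) (nat_lit 0) (p (nat_lit 0x10605868482) (nat_lit 0) (p (nat_lit 0x10585048402) (nat_lit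 0) (p (nat_lit 0x16000c) (nat_lit 0) (p (nat_lit 0x160004) (nat_lit 0) (p (nat_lit 0x60592) (nat_lit 0) (p (nat_lit 0x48512) (nat_lit 0) (p (nat_lit 0x50392) (nat_lit 0) (p (nat_lit 0x38312) (nat_lit 0) (p (nat_lit 0x40212) (nat_lit 0) (p (nat_lit 0x28192) (nat_lit 0) (p (nat_lit 0x30092) (nat_lit 0) (p (nat_lit 0x18012) (nat_lit 0) pn))))))))))))))))))))))) :=
  Cl.node (nat_lit 0x200014) (nat_lit 2) (by decide +kernel) (ClAll.succ (ClAll.succ ClAll.zero s71) n7)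

def n19 : Cl (O (nat_lit 4)) (R (nat_lit 139473))
    (p (nat_lit 0x81) (nat_lit 0) (p (nat_lit 0x101) (nat_lit 1) (p (nat_lit 0x119) (nat_lit 0) (p (nat_lit 0xd1) (nat_lit 0) (p (nat_lit 0x89) (nat_lit 0) (p (nat_lit 0x41) (nat_lit 0) (p (nat_lit 0x109080788869a) (nat_lit 0) (p (nat_lit 0x108878706861a) (nat_lit 0) (p (nat_lit 0x8000000000000080687858a) (nat_lit 0) (p (nat_lit 0x8000000000000078605850a) (nat_lit 0) (p (nat_lit 0x10605868482) (nat_lit 0) (p (nat_lit 0x10585048402) (nat_lit 0) (p (nat_lit 0x16000c) (nat_lit 0) (p (nat_lit 0x160004) (nat_lit 0) (p (nat_lit 0x60592) (nat_lit 0) (p (nat_lit 0x48512) (nat_lit 0) (p (nat_lit 0x50392) (nat_lit 0) (p (nat_lit 0x38312) (nat_lit 0) (p (nat_lit 0x40212) (nat_lit 0) (p (nat_lit 0x28192) (nat_lit 0) (p (nat_lit 0x30092) (nat_lit 0) (p (nat_lit 0x18012) (nat_lit 0) pn)))))))))))))))))))))) :=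
  Cl.node (nat_lit 0xc9) (nat_lit 2) (by decide +kernel) (ClAll.succ (ClAll.succ ClAll.zero s1) s2)

def n20 : Cl (O (nat_lit 4)) (R (nat_lit 139473))
    (p (nat_lit 0x81) (nat_lit 1) (p (nat_lit 0x101) (nat_lit 1) (p (nat_lit 0x119) (nat_lit 0) (p (nat_lit 0xd1) (nat_lit 0) (p (nat_lit 0x89) (nat_lit 0) (p (nat_lit 0x41) (nat_lit 0) (p (nat_lit 0x109080788869a) (nat_lit 0) (p (nat_lit 0x108878706861a) (nat_lit 0) (p (nat_lit 0x8000000000000080687858a) (nat_lit 0) (p (nat_lit 0x8000000000000078605850a) (nat_lit 0) (p (nat_lit 0x10605868482) (nat_lit 0) (p (nat_lit 0x10585048402) (nat_lit 0) (p (nat_lit 0x16000c) (nat_lit 0) (p (nat_lit 0x160004) (nat_lit 0) (p (nat_lit 0x60592) (nat_lit 0) (p (nat_lit 0x48512) (nat_lit 0) (p (nat_lit 0x50392) (nat_lit 0) (p (nat_lit 0x38312) (nat_lit 0) (p (nat_lit 0x40212) (nat_lit 0) (p (nat_lit 0x28192) (nat_lit 0) (p (nat_lit 0x30092) (nat_lit 0) (p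 (nat_lit 0x18012) (nat_lit 0) pn)))))))))))))))))))))) :=
  Cl.node (nat_lit 0xc1) (nat_lit 2) (by decide +kernel) (ClAll.succ (ClAll.succ ClAll.zero n8) s5)

def n21 : Cl (O (nat_lit 4)) (R (nat_lit 139473))
    (p (nat_lit 0x81) (nat_lit 1) (p (nat_lit 0xc1) (nat_lit 1) (p (nat_lit 0x119) (nat_lit 1) (p (nat_lit 0xd1) (nat_lit 0) (p (nat_lit 0x89) (nat_lit 0) (p (nat_lit 0x41) (nat_lit 0) (p (nat_lit 0x109080788869a) (nat_lit 0) (p (nat_lit 0x108878706861a) (nat_lit 0) (p (nat_lit 0x8000000000000080687858a) (nat_lit 0) (p (nat_lit 0x8000000000000078605850a) (nat_lit 0) (p (nat_lit 0x10605868482) (nat_lit 0) (p (nat_lit 0x10585048402) (nat_lit 0) (p (nat_lit 0x16000c) (nat_lit 0) (p (nat_lit 0x160004) (nat_lit 0) (p (nat_lit 0x60592) (nat_lit 0) (p (nat_lit 0x48512) (nat_lit 0) (p (nat_lit 0x50392) (nat_lit 0) (p (nat_lit 0x38312) (nat_lit 0) (p (nat_lit 0x40212) (nat_lit 0) (p (nat_lit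 0x28192) (nat_lit 0) (p (nat_lit 0x30092) (nat_lit 0) (p (nat_lit 0x18012) (nat_lit 0) pn)))))))))))))))))))))) :=
  Cl.node (nat_lit 0x101) (nat_lit 2) (by decide +kernel) (ClAll.succ (ClAll.succ ClAll.zero n9) s10)

def n22 : Cl (O (nat_lit 4)) (R (nat_lit 139473))
    (p (nat_lit 0x109) (nat_lit 1) (p (nat_lit 0x101) (nat_lit 0) (p (nat_lit 0x119) (nat_lit 0) (p (nat_lit 0xc9) (nat_lit 0) (p (nat_lit 0x89) (nat_lit 1) (p (nat_lit 0x41) (nat_lit 0) (p (nat_lit 0x109080788869a) (nat_lit 0) (p (nat_lit 0x108878706861a) (nat_lit 0) (p (nat_lit 0x8000000000000080687858a) (nat_lit 0) (p (nat_lit 0x8000000000000078605850a) (nat_lit 0) (p (nat_lit 0x10605868482) (nat_lit 0) (p (nat_lit 0x10585048402) (nat_lit 0) (p (nat_lit 0x16000c) (nat_lit 0) (p (nat_lit 0x160004) (nat_lit 0) (p (nat_lit 0x60592) (nat_lit 0) (p (nat_lit 0x48512) (nat_lit 0) (p (nat_lit 0x50392) (nat_lit 0) (p (nat_lit 0x38312)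 (nat_lit 0) (p (nat_lit 0x40212) (nat_lit 0) (p (nat_lit 0x28192) (nat_lit 0) (p (nat_lit 0x30092) (nat_lit 0) (p (nat_lit 0x18012) (nat_lit 0) pn)))))))))))))))))))))) :=
  Cl.node (nat_lit 0xd1) (nat_lit 2) (by decide +kernel) (ClAll.succ (ClAll.succ ClAll.zero s16) s17)

def n23 : Cl (O (nat_lit 4)) (R (nat_lit 139473))
    (p (nat_lit 0x101) (nat_lit 0) (p (nat_lit 0xc1) (nat_lit 1) (p (nat_lit 0x119) (nat_lit 1) (p (nat_lit 0xc9) (nat_lit 0) (p (nat_lit 0x89) (nat_lit 1) (p (nat_lit 0x41) (nat_lit 0) (p (nat_lit 0x109080788869a) (nat_lit 0) (p (nat_lit 0x108878706861a) (nat_lit 0) (p (nat_lit 0x8000000000000080687858a) (nat_lit 0) (p (nat_lit 0x8000000000000078605850a) (nat_lit 0) (p (nat_lit 0x10605868482) (nat_lit 0) (p (nat_lit 0x10585048402) (nat_lit 0) (p (nat_lit 0x16000c) (nat_lit 0) (p (nat_lit 0x160004) (nat_lit 0) (p (nat_lit 0x60592) (nat_lit 0) (p (nat_lit 0x48512) (nat_lit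 0) (p (nat_lit 0x50392) (nat_lit 0) (p (nat_lit 0x38312) (nat_lit 0) (p (nat_lit 0x40212) (nat_lit 0) (p (nat_lit 0x28192) (nat_lit 0) (p (nat_lit 0x30092) (nat_lit 0) (p (nat_lit 0x18012) (nat_lit 0) pn)))))))))))))))))))))) :=
  Cl.node (nat_lit 0x111) (nat_lit 2) (by decide +kernel) (ClAll.succ (ClAll.succ ClAll.zero s21) s22)

def n24 : Cl (O (nat_lit 4)) (R (nat_lit 139473))
    (p (nat_lit 0x109) (nat_lit 1) (p (nat_lit 0x101) (nat_lit 0) (p (nat_lit 0x119) (nat_lit 0) (p (nat_lit 0xd1) (nat_lit 0) (p (nat_lit 0x81) (nat_lit 0) (p (nat_lit 0x41) (nat_lit 1) (p (nat_lit 0x109080788869a) (nat_lit 0) (p (nat_lit 0x108878706861a) (nat_lit 0) (p (nat_lit 0x8000000000000080687858a) (nat_lit 0) (p (nat_lit 0x8000000000000078605850a) (nat_lit 0) (p (nat_lit 0x10605868482) (nat_lit 0) (p (nat_lit 0x10585048402) (nat_lit 0) (p (nat_lit 0x16000c) (nat_lit 0) (p (nat_lit 0x160004) (nat_lit 0) (p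 (nat_lit 0x60592) (nat_lit 0) (p (nat_lit 0x48512) (nat_lit 0) (p (nat_lit 0x50392) (nat_lit 0) (p (nat_lit 0x38312) (nat_lit 0) (p (nat_lit 0x40212) (nat_lit 0) (p (nat_lit 0x28192) (nat_lit 0) (p (nat_lit 0x30092) (nat_lit 0) (p (nat_lit 0x18012) (nat_lit 0) pn)))))))))))))))))))))) :=
  Cl.node (nat_lit 0x89) (nat_lit 2) (by decide +kernel) (ClAll.succ (ClAll.succ ClAll.zero s26) n10)

def n25 : Cl (O (nat_lit 4)) (R (nat_lit 139473))
    (p (nat_lit 0xc1) (nat_lit 0) (p (nat_lit 0x101) (nat_lit 1) (p (nat_lit 0x119) (nat_lit 0) (p (nat_lit 0xd1) (nat_lit 0) (p (nat_lit 0x81) (nat_lit 0) (p (nat_lit 0x41) (nat_lit 1) (p (nat_lit 0x109080788869a) (nat_lit 0) (p (nat_lit 0x108878706861a) (nat_lit 0) (p (nat_lit 0x8000000000000080687858a) (nat_lit 0) (p (nat_lit 0x8000000000000078605850a) (nat_lit 0) (p (nat_lit 0x10605868482) (nat_lit 0) (p (nat_lit 0x10585048402) (nat_lit 0) (p (nat_lit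 0x16000c) (nat_lit 0) (p (nat_lit 0x160004) (nat_lit 0) (p (nat_lit 0x60592) (nat_lit 0) (p (nat_lit 0x48512) (nat_lit 0) (p (nat_lit 0x50392) (nat_lit 0) (p (nat_lit 0x38312) (nat_lit 0) (p (nat_lit 0x40212) (nat_lit 0) (p (nat_lit 0x28192) (nat_lit 0) (p (nat_lit 0x30092) (nat_lit 0) (p (nat_lit 0x18012) (nat_lit 0) pn)))))))))))))))))))))) :=
  Cl.node (nat_lit 0x89) (nat_lit 2) (by decide +kernel) (ClAll.succ (ClAll.succ ClAll.zero s30) n11)

def n26 : Cl (O (nat_lit 4)) (R (nat_lit 139473))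
    (p (nat_lit 0xc9) (nat_lit 1) (p (nat_lit 0xc1) (nat_lit 0) (p (nat_lit 0x119) (nat_lit 1) (p (nat_lit 0xd1) (nat_lit 0) (p (nat_lit 0x81) (nat_lit 0) (p (nat_lit 0x41) (nat_lit 1) (p (nat_lit 0x109080788869a) (nat_lit 0) (p (nat_lit 0x108878706861a) (nat_lit 0) (p (nat_lit 0x8000000000000080687858a) (nat_lit 0) (p (nat_lit 0x8000000000000078605850a) (nat_lit 0) (p (nat_lit 0x10605868482) (nat_lit 0) (p (nat_lit 0x10585048402) (nat_lit 0) (p (nat_lit 0x16000c) (nat_lit 0) (p (nat_lit 0x160004) (nat_lit 0) (p (nat_lit 0x60592) (nat_lit 0) (p (nat_lit 0x48512) (nat_lit 0) (p (nat_lit 0x50392) (nat_lit 0) (p (nat_lit 0x38312) (nat_lit 0) (p (nat_lit 0x40212) (nat_lit 0) (p (nat_lit 0x28192) (nat_lit 0) (p (nat_lit 0x30092) (nat_lit 0) (p (nat_lit 0x18012) (nat_lit 0) pn)))))))))))))))))))))) :=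
  Cl.node (nat_lit 0x89) (nat_lit 2) (by decide +kernel) (ClAll.succ (ClAll.succ ClAll.zero s36) n12)

def n27 : Cl (O (nat_lit 4)) (R (nat_lit 139473))
    (p (nat_lit 0x101) (nat_lit 0) (p (nat_lit 0xc1) (nat_lit 1) (p (nat_lit 0x119) (nat_lit 1) (p (nat_lit 0xd1) (nat_lit 0) (p (nat_lit 0x81) (nat_lit 0) (p (nat_lit 0x41) (nat_lit 1) (p (nat_lit 0x109080788869a) (nat_lit 0) (p (nat_lit 0x108878706861a) (nat_lit 0) (p (nat_lit 0x8000000000000080687858a) (nat_lit 0) (p (nat_lit 0x8000000000000078605850a) (nat_lit 0) (p (nat_lit 0x10605868482) (nat_lit 0) (p (nat_lit 0x10585048402) (nat_lit 0) (p (nat_lit 0x16000c) (nat_lit 0) (p (nat_lit 0x160004) (nat_lit 0) (p (nat_lit 0x60592) (nat_lit 0) (p (nat_lit 0x48512) (nat_lit 0) (p (nat_lit 0x50392) (nat_lit 0) (p (nat_lit 0x38312) (nat_lit 0) (p (nat_lit 0x40212) (nat_lit 0) (p (nat_lit 0x28192) (nat_lit 0) (p (nat_lit 0x30092) (nat_lit 0) (p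 (nat_lit 0x18012) (nat_lit 0) pn)))))))))))))))))))))) :=
  Cl.node (nat_lit 0x89) (nat_lit 2) (by decide +kernel) (ClAll.succ (ClAll.succ ClAll.zero s41) n13)

def n28 : Cl (O (nat_lit 4)) (R (nat_lit 139473))
    (p (nat_lit 0x101) (nat_lit 1) (p (nat_lit 0xc1) (nat_lit 1) (p (nat_lit 0x119) (nat_lit 1) (p (nat_lit 0xd1) (nat_lit 0) (p (nat_lit 0x81) (nat_lit 0) (p (nat_lit 0x41) (nat_lit 1) (p (nat_lit 0x109080788869a) (nat_lit 0) (p (nat_lit 0x108878706861a) (nat_lit 0) (p (nat_lit 0x8000000000000080687858a) (nat_lit 0) (p (nat_lit 0x8000000000000078605850a) (nat_lit 0) (p (nat_lit 0x10605868482) (nat_lit 0) (p (nat_lit 0x10585048402) (nat_lit 0) (p (nat_lit 0x16000c) (nat_lit 0) (p (nat_lit 0x160004) (nat_lit 0) (p (nat_lit 0x60592) (nat_lit 0) (p (nat_lit 0x48512) (nat_lit 0) (p (nat_lit 0x50392) (nat_lit 0) (p (nat_lit 0x38312) (nat_lit 0) (p (nat_lit 0x40212) (nat_lit 0) (p (nat_lit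 0x28192) (nat_lit 0) (p (nat_lit 0x30092) (nat_lit 0) (p (nat_lit 0x18012) (nat_lit 0) pn)))))))))))))))))))))) :=
  Cl.node (nat_lit 0x89) (nat_lit 2) (by decide +kernel) (ClAll.succ (ClAll.succ ClAll.zero s45) n14)

def n29 : Cl (O (nat_lit 4)) (R (nat_lit 139473))
    (p (nat_lit 0x109) (nat_lit 1) (p (nat_lit 0x101) (nat_lit 0) (p (nat_lit 0x111) (nat_lit 0) (p (nat_lit 0xd1) (nat_lit 1) (p (nat_lit 0x81) (nat_lit 0) (p (nat_lit 0x41) (nat_lit 1) (p (nat_lit 0x109080788869a) (nat_lit 0) (p (nat_lit 0x108878706861a) (nat_lit 0) (p (nat_lit 0x8000000000000080687858a) (nat_lit 0) (p (nat_lit 0x8000000000000078605850a) (nat_lit 0) (p (nat_lit 0x10605868482) (nat_lit 0) (p (nat_lit 0x10585048402) (nat_lit 0) (p (nat_lit 0x16000c) (nat_lit 0) (p (nat_lit 0x160004) (nat_lit 0) (p (nat_lit 0x60592) (nat_lit 0) (p (nat_lit 0x48512) (nat_lit 0) (p (nat_lit 0x50392) (nat_lit 0) (p (nat_lit 0x38312)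 (nat_lit 0) (p (nat_lit 0x40212) (nat_lit 0) (p (nat_lit 0x28192) (nat_lit 0) (p (nat_lit 0x30092) (nat_lit 0) (p (nat_lit 0x18012) (nat_lit 0) pn)))))))))))))))))))))) :=
  Cl.node (nat_lit 0x89) (nat_lit 2) (by decide +kernel) (ClAll.succ (ClAll.succ ClAll.zero s49) n15)

def n30 : Cl (O (nat_lit 4)) (R (nat_lit 139473))
    (p (nat_lit 0x109) (nat_lit 1) (p (nat_lit 0x101) (nat_lit 0) (p (nat_lit 0x119) (nat_lit 0) (p (nat_lit 0xc1) (nat_lit 0) (p (nat_lit 0x81) (nat_lit 1) (p (nat_lit 0x41) (nat_lit 1) (p (nat_lit 0x109080788869a) (nat_lit 0) (p (nat_lit 0x108878706861a) (nat_lit 0) (p (nat_lit 0x8000000000000080687858a) (nat_lit 0) (p (nat_lit 0x8000000000000078605850a) (nat_lit 0) (p (nat_lit 0x10605868482) (nat_lit 0) (p (nat_lit 0x10585048402) (nat_lit 0) (p (nat_lit 0x16000c) (nat_lit 0) (p (nat_lit 0x160004) (nat_lit 0) (p (nat_lit 0x60592) (nat_lit 0) (p (nat_lit 0x48512) (nat_lit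 0) (p (nat_lit 0x50392) (nat_lit 0) (p (nat_lit 0x38312) (nat_lit 0) (p (nat_lit 0x40212) (nat_lit 0) (p (nat_lit 0x28192) (nat_lit 0) (p (nat_lit 0x30092) (nat_lit 0) (p (nat_lit 0x18012) (nat_lit 0) pn)))))))))))))))))))))) :=
  Cl.node (nat_lit 0xc9) (nat_lit 2) (by decide +kernel) (ClAll.succ (ClAll.succ ClAll.zero s55) s56)

def n31 : Cl (O (nat_lit 4)) (R (nat_lit 139473))
    (p (nat_lit 0xc9) (nat_lit 0) (p (nat_lit 0x101) (nat_lit 1) (p (nat_lit 0x119) (nat_lit 0) (p (nat_lit 0xc1) (nat_lit 0) (p (nat_lit 0x81) (nat_lit 1) (p (nat_lit 0x41) (nat_lit 1) (p (nat_lit 0x109080788869a) (nat_lit 0) (p (nat_lit 0x108878706861a) (nat_lit 0) (p (nat_lit 0x8000000000000080687858a) (nat_lit 0) (p (nat_lit 0x8000000000000078605850a) (nat_lit 0) (p (nat_lit 0x10605868482) (nat_lit 0) (p (nat_lit 0x10585048402) (nat_lit 0) (p (nat_lit 0x16000c) (nat_lit 0) (p (nat_lit 0x160004) (nat_lit 0) (p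 (nat_lit 0x60592) (nat_lit 0) (p (nat_lit 0x48512) (nat_lit 0) (p (nat_lit 0x50392) (nat_lit 0) (p (nat_lit 0x38312) (nat_lit 0) (p (nat_lit 0x40212) (nat_lit 0) (p (nat_lit 0x28192) (nat_lit 0) (p (nat_lit 0x30092) (nat_lit 0) (p (nat_lit 0x18012) (nat_lit 0) pn)))))))))))))))))))))) :=
  Cl.node (nat_lit 0xd1) (nat_lit 2) (by decide +kernel) (ClAll.succ (ClAll.succ ClAll.zero s57) s58)

def n32 : Cl (O (nat_lit 4)) (R (nat_lit 139473))
    (p (nat_lit 0xc9) (nat_lit 1) (p (nat_lit 0x101) (nat_lit 1) (p (nat_lit 0x119) (nat_lit 0) (p (nat_lit 0xc1) (nat_lit 0) (p (nat_lit 0x81) (nat_lit 1) (p (nat_lit 0x41) (nat_lit 1) (p (nat_lit 0x109080788869a) (nat_lit 0) (p (nat_lit 0x108878706861a) (nat_lit 0) (p (nat_lit 0x8000000000000080687858a) (nat_lit 0) (p (nat_lit 0x8000000000000078605850a) (nat_lit 0) (p (nat_lit 0x10605868482) (nat_lit 0) (p (nat_lit 0x10585048402) (nat_lit 0) (p (nat_lit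 0x16000c) (nat_lit 0) (p (nat_lit 0x160004) (nat_lit 0) (p (nat_lit 0x60592) (nat_lit 0) (p (nat_lit 0x48512) (nat_lit 0) (p (nat_lit 0x50392) (nat_lit 0) (p (nat_lit 0x38312) (nat_lit 0) (p (nat_lit 0x40212) (nat_lit 0) (p (nat_lit 0x28192) (nat_lit 0) (p (nat_lit 0x30092) (nat_lit 0) (p (nat_lit 0x18012) (nat_lit 0) pn)))))))))))))))))))))) :=
  Cl.node (nat_lit 0x200014) (nat_lit 2) (by decide +kernel) (ClAll.succ (ClAll.succ ClAll.zero s59) s60)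

def n33 : Cl (O (nat_lit 4)) (R (nat_lit 139473))
    (p (nat_lit 0xd1) (nat_lit 1) (p (nat_lit 0xc9) (nat_lit 0) (p (nat_lit 0x119) (nat_lit 1) (p (nat_lit 0xc1) (nat_lit 0) (p (nat_lit 0x81) (nat_lit 1) (p (nat_lit 0x41) (nat_lit 1) (p (nat_lit 0x109080788869a) (nat_lit 0) (p (nat_lit 0x108878706861a) (nat_lit 0) (p (nat_lit 0x8000000000000080687858a) (nat_lit 0) (p (nat_lit 0x8000000000000078605850a) (nat_lit 0) (p (nat_lit 0x10605868482) (nat_lit 0) (p (nat_lit 0x10585048402) (nat_lit 0) (p (nat_lit 0x16000c) (nat_lit 0) (p (nat_lit 0x160004) (nat_lit 0) (p (nat_lit 0x60592) (nat_lit 0) (p (nat_lit 0x48512) (nat_lit 0) (p (nat_lit 0x50392) (nat_lit 0) (p (nat_lit 0x38312) (nat_lit 0) (p (nat_lit 0x40212) (nat_lit 0) (p (nat_lit 0x28192) (nat_lit 0) (p (nat_lit 0x30092) (nat_lit 0) (p (nat_lit 0x18012) (nat_lit 0) pn)))))))))))))))))))))) :=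
  Cl.node (nat_lit 0x111) (nat_lit 2) (by decide +kernel) (ClAll.succ (ClAll.succ ClAll.zero s62) n16)

def n34 : Cl (O (nat_lit 4)) (R (nat_lit 139473))
    (p (nat_lit 0x109) (nat_lit 0) (p (nat_lit 0xc9) (nat_lit 1) (p (nat_lit 0x119) (nat_lit 1) (p (nat_lit 0xc1) (nat_lit 0) (p (nat_lit 0x81) (nat_lit 1) (p (nat_lit 0x41) (nat_lit 1) (p (nat_lit 0x109080788869a) (nat_lit 0) (p (nat_lit 0x108878706861a) (nat_lit 0) (p (nat_lit 0x8000000000000080687858a) (nat_lit 0) (p (nat_lit 0x8000000000000078605850a) (nat_lit 0) (p (nat_lit 0x10605868482) (nat_lit 0) (p (nat_lit 0x10585048402) (nat_lit 0) (p (nat_lit 0x16000c) (nat_lit 0) (p (nat_lit 0x160004) (nat_lit 0) (p (nat_lit 0x60592) (nat_lit 0) (p (nat_lit 0x48512) (nat_lit 0) (p (nat_lit 0x50392) (nat_lit 0) (p (nat_lit 0x38312) (nat_lit 0) (p (nat_lit 0x40212) (nat_lit 0) (p (nat_lit 0x28192) (nat_lit 0) (p (nat_lit 0x30092) (nat_lit 0)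 (p (nat_lit 0x18012) (nat_lit 0) pn)))))))))))))))))))))) :=
  Cl.node (nat_lit 0x111) (nat_lit 2) (by decide +kernel) (ClAll.succ (ClAll.succ ClAll.zero s65) n17)

def n35 : Cl (O (nat_lit 4)) (R (nat_lit 139473))
    (p (nat_lit 0x109) (nat_lit 1) (p (nat_lit 0xc9) (nat_lit 1) (p (nat_lit 0x119) (nat_lit 1) (p (nat_lit 0xc1) (nat_lit 0) (p (nat_lit 0x81) (nat_lit 1) (p (nat_lit 0x41) (nat_lit 1) (p (nat_lit 0x109080788869a) (nat_lit 0) (p (nat_lit 0x108878706861a) (nat_lit 0) (p (nat_lit 0x8000000000000080687858a) (nat_lit 0) (p (nat_lit 0x8000000000000078605850a) (nat_lit 0) (p (nat_lit 0x10605868482) (nat_lit 0) (p (nat_lit 0x10585048402) (nat_lit 0) (p (nat_lit 0x16000c) (nat_lit 0) (p (nat_lit 0x160004) (nat_lit 0) (p (nat_lit 0x60592) (nat_lit 0) (p (nat_lit 0x48512) (nat_lit 0) (p (nat_lit 0x50392) (nat_lit 0) (p (nat_lit 0x38312) (nat_lit 0) (p (nat_lit 0x40212) (nat_lit 0) (p (nat_lit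 0x28192) (nat_lit 0) (p (nat_lit 0x30092) (nat_lit 0) (p (nat_lit 0x18012) (nat_lit 0) pn)))))))))))))))))))))) :=
  Cl.node (nat_lit 0x200014) (nat_lit 2) (by decide +kernel) (ClAll.succ (ClAll.succ ClAll.zero s68) s69)

def n36 : Cl (O (nat_lit 4)) (R (nat_lit 139473))
    (p (nat_lit 0x111) (nat_lit 0) (p (nat_lit 0x109) (nat_lit 0) (p (nat_lit 0x101) (nat_lit 0) (p (nat_lit 0xc1) (nat_lit 1) (p (nat_lit 0x81) (nat_lit 1) (p (nat_lit 0x41) (nat_lit 1) (p (nat_lit 0x109080788869a) (nat_lit 0) (p (nat_lit 0x108878706861a) (nat_lit 0) (p (nat_lit 0x8000000000000080687858a) (nat_lit 0) (p (nat_lit 0x8000000000000078605850a) (nat_lit 0) (p (nat_lit 0x10605868482) (nat_lit 0) (p (nat_lit 0x10585048402) (nat_lit 0) (p (nat_lit 0x16000c) (nat_lit 0) (p (nat_lit 0x160004) (nat_lit 0) (p (nat_lit 0x60592) (nat_lit 0) (p (nat_lit 0x48512) (nat_lit 0) (p (nat_lit 0x50392) (nat_lit 0) (p (nat_lit 0x38312)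 (nat_lit 0) (p (nat_lit 0x40212) (nat_lit 0) (p (nat_lit 0x28192) (nat_lit 0) (p (nat_lit 0x30092) (nat_lit 0) (p (nat_lit 0x18012) (nat_lit 0) pn)))))))))))))))))))))) :=
  Cl.node (nat_lit 0x119) (nat_lit 2) (by decide +kernel) (ClAll.succ (ClAll.succ ClAll.zero s70) n18)

def n37 : Cl (O (nat_lit 4)) (R (nat_lit 139473))
    (p (nat_lit 0x101) (nat_lit 1) (p (nat_lit 0x119) (nat_lit 0) (p (nat_lit 0xd1) (nat_lit 0) (p (nat_lit 0x89) (nat_lit 0) (p (nat_lit 0x41) (nat_lit 0) (p (nat_lit 0x109080788869a) (nat_lit 0) (p (nat_lit 0x108878706861a) (nat_lit 0) (p (nat_lit 0x8000000000000080687858a) (nat_lit 0) (p (nat_lit 0x8000000000000078605850a) (nat_lit 0) (p (nat_lit 0x10605868482) (nat_lit 0) (p (nat_lit 0x10585048402) (nat_lit 0) (p (nat_lit 0x16000c) (nat_lit 0) (p (nat_lit 0x160004) (nat_lit 0) (p (nat_lit 0x60592) (nat_lit 0) (p (nat_lit 0x48512) (nat_lit 0) (p (nat_lit 0x50392) (nat_lit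 0) (p (nat_lit 0x38312) (nat_lit 0) (p (nat_lit 0x40212) (nat_lit 0) (p (nat_lit 0x28192) (nat_lit 0) (p (nat_lit 0x30092) (nat_lit 0) (p (nat_lit 0x18012) (nat_lit 0) pn))))))))))))))))))))) :=
  Cl.node (nat_lit 0x81) (nat_lit 2) (by decide +kernel) (ClAll.succ (ClAll.succ ClAll.zero n19) n20)

def n38 : Cl (O (nat_lit 4)) (R (nat_lit 139473))
    (p (nat_lit 0xc1) (nat_lit 1) (p (nat_lit 0x119) (nat_lit 1) (p (nat_lit 0xd1) (nat_lit 0) (p (nat_lit 0x89) (nat_lit 0) (p (nat_lit 0x41) (nat_lit 0) (p (nat_lit 0x109080788869a) (nat_lit 0) (p (nat_lit 0x108878706861a) (nat_lit 0) (p (nat_lit 0x8000000000000080687858a) (nat_lit 0) (p (nat_lit 0x8000000000000078605850a) (nat_lit 0) (p (nat_lit 0x10605868482) (nat_lit 0) (p (nat_lit 0x10585048402) (nat_lit 0) (p (nat_lit 0x16000c) (nat_lit 0) (p (nat_lit 0x160004) (nat_lit 0) (p (nat_lit 0x60592) (nat_lit 0) (p (nat_lit 0x48512) (nat_lit 0) (p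 (nat_lit 0x50392) (nat_lit 0) (p (nat_lit 0x38312) (nat_lit 0) (p (nat_lit 0x40212) (nat_lit 0) (p (nat_lit 0x28192) (nat_lit 0) (p (nat_lit 0x30092) (nat_lit 0) (p (nat_lit 0x18012) (nat_lit 0) pn))))))))))))))))))))) :=
  Cl.node (nat_lit 0x81) (nat_lit 2) (by decide +kernel) (ClAll.succ (ClAll.succ ClAll.zero s7) n21)

def n39 : Cl (O (nat_lit 4)) (R (nat_lit 139473))
    (p (nat_lit 0x101) (nat_lit 1) (p (nat_lit 0x111) (nat_lit 0) (p (nat_lit 0xd1) (nat_lit 1) (p (nat_lit 0x89) (nat_lit 0) (p (nat_lit 0x41) (nat_lit 0) (p (nat_lit 0x109080788869a) (nat_lit 0) (p (nat_lit 0x108878706861a) (nat_lit 0) (p (nat_lit 0x8000000000000080687858a) (nat_lit 0) (p (nat_lit 0x8000000000000078605850a) (nat_lit 0) (p (nat_lit 0x10605868482) (nat_lit 0) (p (nat_lit 0x10585048402) (nat_lit 0) (p (nat_lit 0x16000c) (nat_lit 0) (p (nat_lit 0x160004) (nat_lit 0) (p (nat_lit 0x60592) (nat_lit 0) (p (nat_lit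 0x48512) (nat_lit 0) (p (nat_lit 0x50392) (nat_lit 0) (p (nat_lit 0x38312) (nat_lit 0) (p (nat_lit 0x40212) (nat_lit 0) (p (nat_lit 0x28192) (nat_lit 0) (p (nat_lit 0x30092) (nat_lit 0) (p (nat_lit 0x18012) (nat_lit 0) pn))))))))))))))))))))) :=
  Cl.node (nat_lit 0x81) (nat_lit 2) (by decide +kernel) (ClAll.succ (ClAll.succ ClAll.zero s12) s13)

def n40 : Cl (O (nat_lit 4)) (R (nat_lit 139473))
    (p (nat_lit 0x101) (nat_lit 0) (p (nat_lit 0x119) (nat_lit 0) (p (nat_lit 0xc9) (nat_lit 0) (p (nat_lit 0x89) (nat_lit 1) (p (nat_lit 0x41) (nat_lit 0) (p (nat_lit 0x109080788869a) (nat_lit 0) (p (nat_lit 0x108878706861a) (nat_lit 0) (p (nat_lit 0x8000000000000080687858a) (nat_lit 0) (p (nat_lit 0x8000000000000078605850a) (nat_lit 0) (p (nat_lit 0x10605868482) (nat_lit 0) (p (nat_lit 0x10585048402) (nat_lit 0) (p (nat_lit 0x16000c) (nat_lit 0) (p (nat_lit 0x160004) (nat_lit 0) (p (nat_lit 0x60592)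 (nat_lit 0) (p (nat_lit 0x48512) (nat_lit 0) (p (nat_lit 0x50392) (nat_lit 0) (p (nat_lit 0x38312) (nat_lit 0) (p (nat_lit 0x40212) (nat_lit 0) (p (nat_lit 0x28192) (nat_lit 0) (p (nat_lit 0x30092) (nat_lit 0) (p (nat_lit 0x18012) (nat_lit 0) pn))))))))))))))))))))) :=
  Cl.node (nat_lit 0x109) (nat_lit 2) (by decide +kernel) (ClAll.succ (ClAll.succ ClAll.zero s15) n22)

def n41 : Cl (O (nat_lit 4)) (R (nat_lit 139473))
    (p (nat_lit 0x101) (nat_lit 1) (p (nat_lit 0x119) (nat_lit 0) (p (nat_lit 0xc9) (nat_lit 0) (p (nat_lit 0x89) (nat_lit 1) (p (nat_lit 0x41) (nat_lit 0) (p (nat_lit 0x109080788869a) (nat_lit 0) (p (nat_lit 0x108878706861a) (nat_lit 0) (p (nat_lit 0x8000000000000080687858a) (nat_lit 0) (p (nat_lit 0x8000000000000078605850a) (nat_lit 0) (p (nat_lit 0x10605868482) (nat_lit 0) (p (nat_lit 0x10585048402) (nat_lit 0) (p (nat_lit 0x16000c) (nat_lit 0) (p (nat_lit 0x160004) (nat_lit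 0) (p (nat_lit 0x60592) (nat_lit 0) (p (nat_lit 0x48512) (nat_lit 0) (p (nat_lit 0x50392) (nat_lit 0) (p (nat_lit 0x38312) (nat_lit 0) (p (nat_lit 0x40212) (nat_lit 0) (p (nat_lit 0x28192) (nat_lit 0) (p (nat_lit 0x30092) (nat_lit 0) (p (nat_lit 0x18012) (nat_lit 0) pn))))))))))))))))))))) :=
  Cl.node (nat_lit 0xc1) (nat_lit 2) (by decide +kernel) (ClAll.succ (ClAll.succ ClAll.zero s18) s19)

def n42 : Cl (O (nat_lit 4)) (R (nat_lit 139473))
    (p (nat_lit 0xc1) (nat_lit 1) (p (nat_lit 0x119) (nat_lit 1) (p (nat_lit 0xc9) (nat_lit 0) (p (nat_lit 0x89) (nat_lit 1) (p (nat_lit 0x41) (nat_lit 0) (p (nat_lit 0x109080788869a) (nat_lit 0) (p (nat_lit 0x108878706861a) (nat_lit 0) (p (nat_lit 0x8000000000000080687858a) (nat_lit 0) (p (nat_lit 0x8000000000000078605850a) (nat_lit 0) (p (nat_lit 0x10605868482) (nat_lit 0) (p (nat_lit 0x10585048402) (nat_lit 0) (p (nat_lit 0x16000c) (nat_lit 0) (p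 (nat_lit 0x160004) (nat_lit 0) (p (nat_lit 0x60592) (nat_lit 0) (p (nat_lit 0x48512) (nat_lit 0) (p (nat_lit 0x50392) (nat_lit 0) (p (nat_lit 0x38312) (nat_lit 0) (p (nat_lit 0x40212) (nat_lit 0) (p (nat_lit 0x28192) (nat_lit 0) (p (nat_lit 0x30092) (nat_lit 0) (p (nat_lit 0x18012) (nat_lit 0) pn))))))))))))))))))))) :=
  Cl.node (nat_lit 0x101) (nat_lit 2) (by decide +kernel) (ClAll.succ (ClAll.succ ClAll.zero n23) s23)

def n43 : Cl (O (nat_lit 4)) (R (nat_lit 139473))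
    (p (nat_lit 0x101) (nat_lit 0) (p (nat_lit 0x119) (nat_lit 0) (p (nat_lit 0xd1) (nat_lit 0) (p (nat_lit 0x81) (nat_lit 0) (p (nat_lit 0x41) (nat_lit 1) (p (nat_lit 0x109080788869a) (nat_lit 0) (p (nat_lit 0x108878706861a) (nat_lit 0) (p (nat_lit 0x8000000000000080687858a) (nat_lit 0) (p (nat_lit 0x8000000000000078605850a) (nat_lit 0) (p (nat_lit 0x10605868482) (nat_lit 0) (p (nat_lit 0x10585048402) (nat_lit 0) (p (nat_lit 0x16000c) (nat_lit 0) (p (nat_lit 0x160004) (nat_lit 0) (p (nat_lit 0x60592) (nat_lit 0) (p (nat_lit 0x48512) (nat_lit 0) (p (nat_lit 0x50392) (nat_lit 0) (p (nat_lit 0x38312) (nat_lit 0) (p (nat_lit 0x40212) (nat_lit 0) (p (nat_lit 0x28192) (nat_lit 0) (p (nat_lit 0x30092) (nat_lit 0) (p (nat_lit 0x18012) (nat_lit 0) pn))))))))))))))))))))) :=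
  Cl.node (nat_lit 0x109) (nat_lit 2) (by decide +kernel) (ClAll.succ (ClAll.succ ClAll.zero s25) n24)

def n44 : Cl (O (nat_lit 4)) (R (nat_lit 139473))
    (p (nat_lit 0x101) (nat_lit 1) (p (nat_lit 0x119) (nat_lit 0) (p (nat_lit 0xd1) (nat_lit 0) (p (nat_lit 0x81) (nat_lit 0) (p (nat_lit 0x41) (nat_lit 1) (p (nat_lit 0x109080788869a) (nat_lit 0) (p (nat_lit 0x108878706861a) (nat_lit 0) (p (nat_lit 0x8000000000000080687858a) (nat_lit 0) (p (nat_lit 0x8000000000000078605850a) (nat_lit 0) (p (nat_lit 0x10605868482) (nat_lit 0) (p (nat_lit 0x10585048402) (nat_lit 0) (p (nat_lit 0x16000c) (nat_lit 0) (p (nat_lit 0x160004) (nat_lit 0) (p (nat_lit 0x60592) (nat_lit 0) (p (nat_lit 0x48512) (nat_lit 0) (p (nat_lit 0x50392) (nat_lit 0) (p (nat_lit 0x38312) (nat_lit 0) (p (nat_lit 0x40212) (nat_lit 0) (p (nat_lit 0x28192) (nat_lit 0) (p (nat_lit 0x30092) (nat_lit 0) (p (nat_lit 0x18012) (nat_lit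 0) pn))))))))))))))))))))) :=
  Cl.node (nat_lit 0xc1) (nat_lit 2) (by decide +kernel) (ClAll.succ (ClAll.succ ClAll.zero n25) s34)

def n45 : Cl (O (nat_lit 4)) (R (nat_lit 139473))
    (p (nat_lit 0xc1) (nat_lit 0) (p (nat_lit 0x119) (nat_lit 1) (p (nat_lit 0xd1) (nat_lit 0) (p (nat_lit 0x81) (nat_lit 0) (p (nat_lit 0x41) (nat_lit 1) (p (nat_lit 0x109080788869a) (nat_lit 0) (p (nat_lit 0x108878706861a) (nat_lit 0) (p (nat_lit 0x8000000000000080687858a) (nat_lit 0) (p (nat_lit 0x8000000000000078605850a) (nat_lit 0) (p (nat_lit 0x10605868482) (nat_lit 0) (p (nat_lit 0x10585048402) (nat_lit 0) (p (nat_lit 0x16000c) (nat_lit 0) (p (nat_lit 0x160004) (nat_lit 0) (p (nat_lit 0x60592) (nat_lit 0) (p (nat_lit 0x48512) (nat_lit 0) (p (nat_lit 0x50392) (nat_lit 0) (p (nat_lit 0x38312) (nat_lit 0) (p (nat_lit 0x40212) (nat_lit 0) (p (nat_lit 0x28192) (nat_lit 0) (p (nat_lit 0x30092) (nat_lit 0) (p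 (nat_lit 0x18012) (nat_lit 0) pn))))))))))))))))))))) :=
  Cl.node (nat_lit 0xc9) (nat_lit 2) (by decide +kernel) (ClAll.succ (ClAll.succ ClAll.zero s35) n26)

def n46 : Cl (O (nat_lit 4)) (R (nat_lit 139473))
    (p (nat_lit 0xc1) (nat_lit 1) (p (nat_lit 0x119) (nat_lit 1) (p (nat_lit 0xd1) (nat_lit 0) (p (nat_lit 0x81) (nat_lit 0) (p (nat_lit 0x41) (nat_lit 1) (p (nat_lit 0x109080788869a) (nat_lit 0) (p (nat_lit 0x108878706861a) (nat_lit 0) (p (nat_lit 0x8000000000000080687858a) (nat_lit 0) (p (nat_lit 0x8000000000000078605850a) (nat_lit 0) (p (nat_lit 0x10605868482) (nat_lit 0) (p (nat_lit 0x10585048402) (nat_lit 0) (p (nat_lit 0x16000c) (nat_lit 0) (p (nat_lit 0x160004) (nat_lit 0) (p (nat_lit 0x60592) (nat_lit 0) (p (nat_lit 0x48512) (nat_lit 0) (p (nat_lit 0x50392) (nat_lit 0) (p (nat_lit 0x38312) (nat_lit 0) (p (nat_lit 0x40212) (nat_lit 0) (p (nat_lit 0x28192) (nat_lit 0) (p (nat_lit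 0x30092) (nat_lit 0) (p (nat_lit 0x18012) (nat_lit 0) pn))))))))))))))))))))) :=
  Cl.node (nat_lit 0x101) (nat_lit 2) (by decide +kernel) (ClAll.succ (ClAll.succ ClAll.zero n27) n28)

def n47 : Cl (O (nat_lit 4)) (R (nat_lit 139473))
    (p (nat_lit 0x101) (nat_lit 0) (p (nat_lit 0x111) (nat_lit 0) (p (nat_lit 0xd1) (nat_lit 1) (p (nat_lit 0x81) (nat_lit 0) (p (nat_lit 0x41) (nat_lit 1) (p (nat_lit 0x109080788869a) (nat_lit 0) (p (nat_lit 0x108878706861a) (nat_lit 0) (p (nat_lit 0x8000000000000080687858a) (nat_lit 0) (p (nat_lit 0x8000000000000078605850a) (nat_lit 0) (p (nat_lit 0x10605868482) (nat_lit 0) (p (nat_lit 0x10585048402) (nat_lit 0) (p (nat_lit 0x16000c) (nat_lit 0) (p (nat_lit 0x160004) (nat_lit 0) (p (nat_lit 0x60592) (nat_lit 0) (p (nat_lit 0x48512) (nat_lit 0) (p (nat_lit 0x50392) (nat_lit 0) (p (nat_lit 0x38312) (nat_lit 0) (p (nat_lit 0x40212) (nat_lit 0) (p (nat_lit 0x28192)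 (nat_lit 0) (p (nat_lit 0x30092) (nat_lit 0) (p (nat_lit 0x18012) (nat_lit 0) pn))))))))))))))))))))) :=
  Cl.node (nat_lit 0x109) (nat_lit 2) (by decide +kernel) (ClAll.succ (ClAll.succ ClAll.zero s48) n29)

def n48 : Cl (O (nat_lit 4)) (R (nat_lit 139473))
    (p (nat_lit 0x101) (nat_lit 0) (p (nat_lit 0x119) (nat_lit 0) (p (nat_lit 0xc1) (nat_lit 0) (p (nat_lit 0x81) (nat_lit 1) (p (nat_lit 0x41) (nat_lit 1) (p (nat_lit 0x109080788869a) (nat_lit 0) (p (nat_lit 0x108878706861a) (nat_lit 0) (p (nat_lit 0x8000000000000080687858a) (nat_lit 0) (p (nat_lit 0x8000000000000078605850a) (nat_lit 0) (p (nat_lit 0x10605868482) (nat_lit 0) (p (nat_lit 0x10585048402) (nat_lit 0) (p (nat_lit 0x16000c) (nat_lit 0) (p (nat_lit 0x160004) (nat_lit 0) (p (nat_lit 0x60592) (nat_lit 0) (p (nat_lit 0x48512) (nat_lit 0) (p (nat_lit 0x50392) (nat_lit 0) (p (nat_lit 0x38312) (nat_lit 0) (p (nat_lit 0x40212) (nat_lit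 0) (p (nat_lit 0x28192) (nat_lit 0) (p (nat_lit 0x30092) (nat_lit 0) (p (nat_lit 0x18012) (nat_lit 0) pn))))))))))))))))))))) :=
  Cl.node (nat_lit 0x109) (nat_lit 2) (by decide +kernel) (ClAll.succ (ClAll.succ ClAll.zero s54) n30)

def n49 : Cl (O (nat_lit 4)) (R (nat_lit 139473))
    (p (nat_lit 0x101) (nat_lit 1) (p (nat_lit 0x119) (nat_lit 0) (p (nat_lit 0xc1) (nat_lit 0) (p (nat_lit 0x81) (nat_lit 1) (p (nat_lit 0x41) (nat_lit 1) (p (nat_lit 0x109080788869a) (nat_lit 0) (p (nat_lit 0x108878706861a) (nat_lit 0) (p (nat_lit 0x8000000000000080687858a) (nat_lit 0) (p (nat_lit 0x8000000000000078605850a) (nat_lit 0) (p (nat_lit 0x10605868482) (nat_lit 0) (p (nat_lit 0x10585048402) (nat_lit 0) (p (nat_lit 0x16000c) (nat_lit 0) (p (nat_lit 0x160004) (nat_lit 0) (p (nat_lit 0x60592) (nat_lit 0) (p (nat_lit 0x48512) (nat_lit 0) (p (nat_lit 0x50392) (nat_lit 0) (p (nat_lit 0x38312) (nat_lit 0)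 (p (nat_lit 0x40212) (nat_lit 0) (p (nat_lit 0x28192) (nat_lit 0) (p (nat_lit 0x30092) (nat_lit 0) (p (nat_lit 0x18012) (nat_lit 0) pn))))))))))))))))))))) :=
  Cl.node (nat_lit 0xc9) (nat_lit 2) (by decide +kernel) (ClAll.succ (ClAll.succ ClAll.zero n31) n32)

def n50 : Cl (O (nat_lit 4)) (R (nat_lit 139473))
    (p (nat_lit 0xc9) (nat_lit 0) (p (nat_lit 0x119) (nat_lit 1) (p (nat_lit 0xc1) (nat_lit 0) (p (nat_lit 0x81) (nat_lit 1) (p (nat_lit 0x41) (nat_lit 1) (p (nat_lit 0x109080788869a) (nat_lit 0) (p (nat_lit 0x108878706861a) (nat_lit 0) (p (nat_lit 0x8000000000000080687858a) (nat_lit 0) (p (nat_lit 0x8000000000000078605850a) (nat_lit 0) (p (nat_lit 0x10605868482) (nat_lit 0) (p (nat_lit 0x10585048402) (nat_lit 0) (p (nat_lit 0x16000c) (nat_lit 0) (p (nat_lit 0x160004) (nat_lit 0) (p (nat_lit 0x60592) (nat_lit 0) (p (nat_lit 0x48512) (nat_lit 0) (p (nat_lit 0x50392) (nat_lit 0) (p (nat_lit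 0x38312) (nat_lit 0) (p (nat_lit 0x40212) (nat_lit 0) (p (nat_lit 0x28192) (nat_lit 0) (p (nat_lit 0x30092) (nat_lit 0) (p (nat_lit 0x18012) (nat_lit 0) pn))))))))))))))))))))) :=
  Cl.node (nat_lit 0xd1) (nat_lit 2) (by decide +kernel) (ClAll.succ (ClAll.succ ClAll.zero s61) n33)

def n51 : Cl (O (nat_lit 4)) (R (nat_lit 139473))
    (p (nat_lit 0xc9) (nat_lit 1) (p (nat_lit 0x119) (nat_lit 1) (p (nat_lit 0xc1) (nat_lit 0) (p (nat_lit 0x81) (nat_lit 1) (p (nat_lit 0x41) (nat_lit 1) (p (nat_lit 0x109080788869a) (nat_lit 0) (p (nat_lit 0x108878706861a) (nat_lit 0) (p (nat_lit 0x8000000000000080687858a) (nat_lit 0) (p (nat_lit 0x8000000000000078605850a) (nat_lit 0) (p (nat_lit 0x10605868482) (nat_lit 0) (p (nat_lit 0x10585048402) (nat_lit 0) (p (nat_lit 0x16000c) (nat_lit 0) (p (nat_lit 0x160004) (nat_lit 0) (p (nat_lit 0x60592) (nat_lit 0) (p (nat_lit 0x48512) (nat_lit 0) (p (nat_lit 0x50392)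 (nat_lit 0) (p (nat_lit 0x38312) (nat_lit 0) (p (nat_lit 0x40212) (nat_lit 0) (p (nat_lit 0x28192) (nat_lit 0) (p (nat_lit 0x30092) (nat_lit 0) (p (nat_lit 0x18012) (nat_lit 0) pn))))))))))))))))))))) :=
  Cl.node (nat_lit 0x109) (nat_lit 2) (by decide +kernel) (ClAll.succ (ClAll.succ ClAll.zero n34) n35)

def n52 : Cl (O (nat_lit 4)) (R (nat_lit 139473))
    (p (nat_lit 0x109) (nat_lit 0) (p (nat_lit 0x101) (nat_lit 0) (p (nat_lit 0xc1) (nat_lit 1) (p (nat_lit 0x81) (nat_lit 1) (p (nat_lit 0x41) (nat_lit 1) (p (nat_lit 0x109080788869a) (nat_lit 0) (p (nat_lit 0x108878706861a) (nat_lit 0) (p (nat_lit 0x8000000000000080687858a) (nat_lit 0) (p (nat_lit 0x8000000000000078605850a) (nat_lit 0) (p (nat_lit 0x10605868482) (nat_lit 0) (p (nat_lit 0x10585048402) (nat_lit 0) (p (nat_lit 0x16000c) (nat_lit 0) (p (nat_lit 0x160004) (nat_lit 0) (p (nat_lit 0x60592) (nat_lit 0) (p (nat_lit 0x48512) (nat_lit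 0) (p (nat_lit 0x50392) (nat_lit 0) (p (nat_lit 0x38312) (nat_lit 0) (p (nat_lit 0x40212) (nat_lit 0) (p (nat_lit 0x28192) (nat_lit 0) (p (nat_lit 0x30092) (nat_lit 0) (p (nat_lit 0x18012) (nat_lit 0) pn))))))))))))))))))))) :=
  Cl.node (nat_lit 0x111) (nat_lit 2) (by decide +kernel) (ClAll.succ (ClAll.succ ClAll.zero n36) s76)

def n53 : Cl (O (nat_lit 4)) (R (nat_lit 139473))
    (p (nat_lit 0x119) (nat_lit 0) (p (nat_lit 0xd1) (nat_lit 0) (p (nat_lit 0x89) (nat_lit 0) (p (nat_lit 0x41) (nat_lit 0) (p (nat_lit 0x109080788869a) (nat_lit 0) (p (nat_lit 0x108878706861a) (nat_lit 0) (p (nat_lit 0x8000000000000080687858a) (nat_lit 0) (p (nat_lit 0x8000000000000078605850a) (nat_lit 0) (p (nat_lit 0x10605868482) (nat_lit 0) (p (nat_lit 0x10585048402) (nat_lit 0) (p (nat_lit 0x16000c) (nat_lit 0) (p (nat_lit 0x160004) (nat_lit 0) (p (nat_lit 0x60592) (nat_lit 0) (p (nat_lit 0x48512) (nat_lit 0)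 (p (nat_lit 0x50392) (nat_lit 0) (p (nat_lit 0x38312) (nat_lit 0) (p (nat_lit 0x40212) (nat_lit 0) (p (nat_lit 0x28192) (nat_lit 0) (p (nat_lit 0x30092) (nat_lit 0) (p (nat_lit 0x18012) (nat_lit 0) pn)))))))))))))))))))) :=
  Cl.node (nat_lit 0x101) (nat_lit 2) (by decide +kernel) (ClAll.succ (ClAll.succ ClAll.zero s0) n37)

def n54 : Cl (O (nat_lit 4)) (R (nat_lit 139473))
    (p (nat_lit 0x119) (nat_lit 1) (p (nat_lit 0xd1) (nat_lit 0) (p (nat_lit 0x89) (nat_lit 0) (p (nat_lit 0x41) (nat_lit 0) (p (nat_lit 0x109080788869a) (nat_lit 0) (p (nat_lit 0x108878706861a) (nat_lit 0) (p (nat_lit 0x8000000000000080687858a) (nat_lit 0) (p (nat_lit 0x8000000000000078605850a) (nat_lit 0) (p (nat_lit 0x10605868482) (nat_lit 0) (p (nat_lit 0x10585048402) (nat_lit 0) (p (nat_lit 0x16000c) (nat_lit 0) (p (nat_lit 0x160004) (nat_lit 0) (p (nat_lit 0x60592) (nat_lit 0) (p (nat_lit 0x48512) (nat_lit 0) (p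 (nat_lit 0x50392) (nat_lit 0) (p (nat_lit 0x38312) (nat_lit 0) (p (nat_lit 0x40212) (nat_lit 0) (p (nat_lit 0x28192) (nat_lit 0) (p (nat_lit 0x30092) (nat_lit 0) (p (nat_lit 0x18012) (nat_lit 0) pn)))))))))))))))))))) :=
  Cl.node (nat_lit 0xc1) (nat_lit 2) (by decide +kernel) (ClAll.succ (ClAll.succ ClAll.zero s6) n38)

def n55 : Cl (O (nat_lit 4)) (R (nat_lit 139473))
    (p (nat_lit 0x111) (nat_lit 0) (p (nat_lit 0xd1) (nat_lit 1) (p (nat_lit 0x89) (nat_lit 0) (p (nat_lit 0x41) (nat_lit 0) (p (nat_lit 0x109080788869a) (nat_lit 0) (p (nat_lit 0x108878706861a) (nat_lit 0) (p (nat_lit 0x8000000000000080687858a) (nat_lit 0) (p (nat_lit 0x8000000000000078605850a) (nat_lit 0) (p (nat_lit 0x10605868482) (nat_lit 0) (p (nat_lit 0x10585048402) (nat_lit 0) (p (nat_lit 0x16000c) (nat_lit 0) (p (nat_lit 0x160004) (nat_lit 0) (p (nat_lit 0x60592) (nat_lit 0) (p (nat_lit 0x48512) (nat_lit 0) (p (nat_lit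 0x50392) (nat_lit 0) (p (nat_lit 0x38312) (nat_lit 0) (p (nat_lit 0x40212) (nat_lit 0) (p (nat_lit 0x28192) (nat_lit 0) (p (nat_lit 0x30092) (nat_lit 0) (p (nat_lit 0x18012) (nat_lit 0) pn)))))))))))))))))))) :=
  Cl.node (nat_lit 0x101) (nat_lit 2) (by decide +kernel) (ClAll.succ (ClAll.succ ClAll.zero s11) n39)

def n56 : Cl (O (nat_lit 4)) (R (nat_lit 139473))
    (p (nat_lit 0x119) (nat_lit 0) (p (nat_lit 0xc9) (nat_lit 0) (p (nat_lit 0x89) (nat_lit 1) (p (nat_lit 0x41) (nat_lit 0) (p (nat_lit 0x109080788869a) (nat_lit 0) (p (nat_lit 0x108878706861a) (nat_lit 0) (p (nat_lit 0x8000000000000080687858a) (nat_lit 0) (p (nat_lit 0x8000000000000078605850a) (nat_lit 0) (p (nat_lit 0x10605868482) (nat_lit 0) (p (nat_lit 0x10585048402) (nat_lit 0) (p (nat_lit 0x16000c) (nat_lit 0) (p (nat_lit 0x160004) (nat_lit 0) (p (nat_lit 0x60592) (nat_lit 0) (p (nat_lit 0x48512) (nat_lit 0) (p (nat_lit 0x50392)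 (nat_lit 0) (p (nat_lit 0x38312) (nat_lit 0) (p (nat_lit 0x40212) (nat_lit 0) (p (nat_lit 0x28192) (nat_lit 0) (p (nat_lit 0x30092) (nat_lit 0) (p (nat_lit 0x18012) (nat_lit 0) pn)))))))))))))))))))) :=
  Cl.node (nat_lit 0x101) (nat_lit 2) (by decide +kernel) (ClAll.succ (ClAll.succ ClAll.zero n40) n41)

def n57 : Cl (O (nat_lit 4)) (R (nat_lit 139473))
    (p (nat_lit 0x119) (nat_lit 1) (p (nat_lit 0xc9) (nat_lit 0) (p (nat_lit 0x89) (nat_lit 1) (p (nat_lit 0x41) (nat_lit 0) (p (nat_lit 0x109080788869a) (nat_lit 0) (p (nat_lit 0x108878706861a) (nat_lit 0) (p (nat_lit 0x8000000000000080687858a) (nat_lit 0) (p (nat_lit 0x8000000000000078605850a) (nat_lit 0) (p (nat_lit 0x10605868482) (nat_lit 0) (p (nat_lit 0x10585048402) (nat_lit 0) (p (nat_lit 0x16000c) (nat_lit 0) (p (nat_lit 0x160004) (nat_lit 0) (p (nat_lit 0x60592) (nat_lit 0) (p (nat_lit 0x48512) (nat_lit 0) (p (nat_lit 0x50392) (nat_lit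 0) (p (nat_lit 0x38312) (nat_lit 0) (p (nat_lit 0x40212) (nat_lit 0) (p (nat_lit 0x28192) (nat_lit 0) (p (nat_lit 0x30092) (nat_lit 0) (p (nat_lit 0x18012) (nat_lit 0) pn)))))))))))))))))))) :=
  Cl.node (nat_lit 0xc1) (nat_lit 2) (by decide +kernel) (ClAll.succ (ClAll.succ ClAll.zero s20) n42)

def n58 : Cl (O (nat_lit 4)) (R (nat_lit 139473))
    (p (nat_lit 0x119) (nat_lit 0) (p (nat_lit 0xd1) (nat_lit 0) (p (nat_lit 0x81) (nat_lit 0) (p (nat_lit 0x41) (nat_lit 1) (p (nat_lit 0x109080788869a) (nat_lit 0) (p (nat_lit 0x108878706861a) (nat_lit 0) (p (nat_lit 0x8000000000000080687858a) (nat_lit 0) (p (nat_lit 0x8000000000000078605850a) (nat_lit 0) (p (nat_lit 0x10605868482) (nat_lit 0) (p (nat_lit 0x10585048402) (nat_lit 0) (p (nat_lit 0x16000c) (nat_lit 0) (p (nat_lit 0x160004) (nat_lit 0) (p (nat_lit 0x60592) (nat_lit 0) (p (nat_lit 0x48512) (nat_lit 0) (p (nat_lit 0x50392) (nat_lit 0)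 (p (nat_lit 0x38312) (nat_lit 0) (p (nat_lit 0x40212) (nat_lit 0) (p (nat_lit 0x28192) (nat_lit 0) (p (nat_lit 0x30092) (nat_lit 0) (p (nat_lit 0x18012) (nat_lit 0) pn)))))))))))))))))))) :=
  Cl.node (nat_lit 0x101) (nat_lit 2) (by decide +kernel) (ClAll.succ (ClAll.succ ClAll.zero n43) n44)

def n59 : Cl (O (nat_lit 4)) (R (nat_lit 139473))
    (p (nat_lit 0x119) (nat_lit 1) (p (nat_lit 0xd1) (nat_lit 0) (p (nat_lit 0x81) (nat_lit 0) (p (nat_lit 0x41) (nat_lit 1) (p (nat_lit 0x109080788869a) (nat_lit 0) (p (nat_lit 0x108878706861a) (nat_lit 0) (p (nat_lit 0x8000000000000080687858a) (nat_lit 0) (p (nat_lit 0x8000000000000078605850a) (nat_lit 0) (p (nat_lit 0x10605868482) (nat_lit 0) (p (nat_lit 0x10585048402) (nat_lit 0) (p (nat_lit 0x16000c) (nat_lit 0) (p (nat_lit 0x160004) (nat_lit 0) (p (nat_lit 0x60592) (nat_lit 0) (p (nat_lit 0x48512) (nat_lit 0) (p (nat_lit 0x50392) (nat_lit 0) (p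 (nat_lit 0x38312) (nat_lit 0) (p (nat_lit 0x40212) (nat_lit 0) (p (nat_lit 0x28192) (nat_lit 0) (p (nat_lit 0x30092) (nat_lit 0) (p (nat_lit 0x18012) (nat_lit 0) pn)))))))))))))))))))) :=
  Cl.node (nat_lit 0xc1) (nat_lit 2) (by decide +kernel) (ClAll.succ (ClAll.succ ClAll.zero n45) n46)

def n60 : Cl (O (nat_lit 4)) (R (nat_lit 139473))
    (p (nat_lit 0x111) (nat_lit 0) (p (nat_lit 0xd1) (nat_lit 1) (p (nat_lit 0x81) (nat_lit 0) (p (nat_lit 0x41) (nat_lit 1) (p (nat_lit 0x109080788869a) (nat_lit 0) (p (nat_lit 0x108878706861a) (nat_lit 0) (p (nat_lit 0x8000000000000080687858a) (nat_lit 0) (p (nat_lit 0x8000000000000078605850a) (nat_lit 0) (p (nat_lit 0x10605868482) (nat_lit 0) (p (nat_lit 0x10585048402) (nat_lit 0) (p (nat_lit 0x16000c) (nat_lit 0) (p (nat_lit 0x160004) (nat_lit 0) (p (nat_lit 0x60592) (nat_lit 0) (p (nat_lit 0x48512) (nat_lit 0) (p (nat_lit 0x50392) (nat_lit 0) (p (nat_lit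 0x38312) (nat_lit 0) (p (nat_lit 0x40212) (nat_lit 0) (p (nat_lit 0x28192) (nat_lit 0) (p (nat_lit 0x30092) (nat_lit 0) (p (nat_lit 0x18012) (nat_lit 0) pn)))))))))))))))))))) :=
  Cl.node (nat_lit 0x101) (nat_lit 2) (by decide +kernel) (ClAll.succ (ClAll.succ ClAll.zero n47) s52)

def n61 : Cl (O (nat_lit 4)) (R (nat_lit 139473))
    (p (nat_lit 0x119) (nat_lit 0) (p (nat_lit 0xc1) (nat_lit 0) (p (nat_lit 0x81) (nat_lit 1) (p (nat_lit 0x41) (nat_lit 1) (p (nat_lit 0x109080788869a) (nat_lit 0) (p (nat_lit 0x108878706861a) (nat_lit 0) (p (nat_lit 0x8000000000000080687858a) (nat_lit 0) (p (nat_lit 0x8000000000000078605850a) (nat_lit 0) (p (nat_lit 0x10605868482) (nat_lit 0) (p (nat_lit 0x10585048402) (nat_lit 0) (p (nat_lit 0x16000c) (nat_lit 0) (p (nat_lit 0x160004) (nat_lit 0) (p (nat_lit 0x60592) (nat_lit 0) (p (nat_lit 0x48512) (nat_lit 0) (p (nat_lit 0x50392) (nat_lit 0) (p (nat_lit 0x38312)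 (nat_lit 0) (p (nat_lit 0x40212) (nat_lit 0) (p (nat_lit 0x28192) (nat_lit 0) (p (nat_lit 0x30092) (nat_lit 0) (p (nat_lit 0x18012) (nat_lit 0) pn)))))))))))))))))))) :=
  Cl.node (nat_lit 0x101) (nat_lit 2) (by decide +kernel) (ClAll.succ (ClAll.succ ClAll.zero n48) n49)

def n62 : Cl (O (nat_lit 4)) (R (nat_lit 139473))
    (p (nat_lit 0x119) (nat_lit 1) (p (nat_lit 0xc1) (nat_lit 0) (p (nat_lit 0x81) (nat_lit 1) (p (nat_lit 0x41) (nat_lit 1) (p (nat_lit 0x109080788869a) (nat_lit 0) (p (nat_lit 0x108878706861a) (nat_lit 0) (p (nat_lit 0x8000000000000080687858a) (nat_lit 0) (p (nat_lit 0x8000000000000078605850a) (nat_lit 0) (p (nat_lit 0x10605868482) (nat_lit 0) (p (nat_lit 0x10585048402) (nat_lit 0) (p (nat_lit 0x16000c) (nat_lit 0) (p (nat_lit 0x160004) (nat_lit 0) (p (nat_lit 0x60592) (nat_lit 0) (p (nat_lit 0x48512) (nat_lit 0) (p (nat_lit 0x50392) (nat_lit 0) (p (nat_lit 0x38312) (nat_lit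 0) (p (nat_lit 0x40212) (nat_lit 0) (p (nat_lit 0x28192) (nat_lit 0) (p (nat_lit 0x30092) (nat_lit 0) (p (nat_lit 0x18012) (nat_lit 0) pn)))))))))))))))))))) :=
  Cl.node (nat_lit 0xc9) (nat_lit 2) (by decide +kernel) (ClAll.succ (ClAll.succ ClAll.zero n50) n51)

def n63 : Cl (O (nat_lit 4)) (R (nat_lit 139473))
    (p (nat_lit 0x101) (nat_lit 0) (p (nat_lit 0xc1) (nat_lit 1) (p (nat_lit 0x81) (nat_lit 1) (p (nat_lit 0x41) (nat_lit 1) (p (nat_lit 0x109080788869a) (nat_lit 0) (p (nat_lit 0x108878706861a) (nat_lit 0) (p (nat_lit 0x8000000000000080687858a) (nat_lit 0) (p (nat_lit 0x8000000000000078605850a) (nat_lit 0) (p (nat_lit 0x10605868482) (nat_lit 0) (p (nat_lit 0x10585048402) (nat_lit 0) (p (nat_lit 0x16000c) (nat_lit 0) (p (nat_lit 0x160004) (nat_lit 0) (p (nat_lit 0x60592) (nat_lit 0) (p (nat_lit 0x48512) (nat_lit 0) (p (nat_lit 0x50392) (nat_lit 0) (p (nat_lit 0x38312) (nat_lit 0)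 (p (nat_lit 0x40212) (nat_lit 0) (p (nat_lit 0x28192) (nat_lit 0) (p (nat_lit 0x30092) (nat_lit 0) (p (nat_lit 0x18012) (nat_lit 0) pn)))))))))))))))))))) :=
  Cl.node (nat_lit 0x109) (nat_lit 2) (by decide +kernel) (ClAll.succ (ClAll.succ ClAll.zero n52) s77)

def n64 : Cl (O (nat_lit 4)) (R (nat_lit 139473))
    (p (nat_lit 0xd1) (nat_lit 0) (p (nat_lit 0x89) (nat_lit 0) (p (nat_lit 0x41) (nat_lit 0) (p (nat_lit 0x109080788869a) (nat_lit 0) (p (nat_lit 0x108878706861a) (nat_lit 0) (p (nat_lit 0x8000000000000080687858a) (nat_lit 0) (p (nat_lit 0x8000000000000078605850a) (nat_lit 0) (p (nat_lit 0x10605868482) (nat_lit 0) (p (nat_lit 0x10585048402) (nat_lit 0) (p (nat_lit 0x16000c) (nat_lit 0) (p (nat_lit 0x160004) (nat_lit 0) (p (nat_lit 0x60592) (nat_lit 0) (p (nat_lit 0x48512) (nat_lit 0) (p (nat_lit 0x50392) (nat_lit 0) (p (nat_lit 0x38312) (nat_lit 0) (p (nat_lit 0x40212) (nat_lit 0)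 (p (nat_lit 0x28192) (nat_lit 0) (p (nat_lit 0x30092) (nat_lit 0) (p (nat_lit 0x18012) (nat_lit 0) pn))))))))))))))))))) :=
  Cl.node (nat_lit 0x119) (nat_lit 2) (by decide +kernel) (ClAll.succ (ClAll.succ ClAll.zero n53) n54)

def n65 : Cl (O (nat_lit 4)) (R (nat_lit 139473))
    (p (nat_lit 0xd1) (nat_lit 1) (p (nat_lit 0x89) (nat_lit 0) (p (nat_lit 0x41) (nat_lit 0) (p (nat_lit 0x109080788869a) (nat_lit 0) (p (nat_lit 0x108878706861a) (nat_lit 0) (p (nat_lit 0x8000000000000080687858a) (nat_lit 0) (p (nat_lit 0x8000000000000078605850a) (nat_lit 0) (p (nat_lit 0x10605868482) (nat_lit 0) (p (nat_lit 0x10585048402) (nat_lit 0) (p (nat_lit 0x16000c) (nat_lit 0) (p (nat_lit 0x160004) (nat_lit 0) (p (nat_lit 0x60592) (nat_lit 0) (p (nat_lit 0x48512) (nat_lit 0) (p (nat_lit 0x50392) (nat_lit 0) (p (nat_lit 0x38312) (nat_lit 0) (p (nat_lit 0x40212) (nat_lit 0) (p (nat_lit 0x28192) (nat_lit 0) (p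 (nat_lit 0x30092) (nat_lit 0) (p (nat_lit 0x18012) (nat_lit 0) pn))))))))))))))))))) :=
  Cl.node (nat_lit 0x111) (nat_lit 2) (by decide +kernel) (ClAll.succ (ClAll.succ ClAll.zero n55) s14)

def n66 : Cl (O (nat_lit 4)) (R (nat_lit 139473))
    (p (nat_lit 0xc9) (nat_lit 0) (p (nat_lit 0x89) (nat_lit 1) (p (nat_lit 0x41) (nat_lit 0) (p (nat_lit 0x109080788869a) (nat_lit 0) (p (nat_lit 0x108878706861a) (nat_lit 0) (p (nat_lit 0x8000000000000080687858a) (nat_lit 0) (p (nat_lit 0x8000000000000078605850a) (nat_lit 0) (p (nat_lit 0x10605868482) (nat_lit 0) (p (nat_lit 0x10585048402) (nat_lit 0) (p (nat_lit 0x16000c) (nat_lit 0) (p (nat_lit 0x160004) (nat_lit 0) (p (nat_lit 0x60592) (nat_lit 0) (p (nat_lit 0x48512) (nat_lit 0) (p (nat_lit 0x50392) (nat_lit 0) (p (nat_lit 0x38312) (nat_lit 0) (p (nat_lit 0x40212) (nat_lit 0) (p (nat_lit 0x28192) (nat_lit 0) (p (nat_lit 0x30092) (nat_lit 0) (p (nat_lit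 0x18012) (nat_lit 0) pn))))))))))))))))))) :=
  Cl.node (nat_lit 0x119) (nat_lit 2) (by decide +kernel) (ClAll.succ (ClAll.succ ClAll.zero n56) n57)

def n67 : Cl (O (nat_lit 4)) (R (nat_lit 139473))
    (p (nat_lit 0xd1) (nat_lit 0) (p (nat_lit 0x81) (nat_lit 0) (p (nat_lit 0x41) (nat_lit 1) (p (nat_lit 0x109080788869a) (nat_lit 0) (p (nat_lit 0x108878706861a) (nat_lit 0) (p (nat_lit 0x8000000000000080687858a) (nat_lit 0) (p (nat_lit 0x8000000000000078605850a) (nat_lit 0) (p (nat_lit 0x10605868482) (nat_lit 0) (p (nat_lit 0x10585048402) (nat_lit 0) (p (nat_lit 0x16000c) (nat_lit 0) (p (nat_lit 0x160004) (nat_lit 0) (p (nat_lit 0x60592) (nat_lit 0) (p (nat_lit 0x48512) (nat_lit 0) (p (nat_lit 0x50392) (nat_lit 0) (p (nat_lit 0x38312) (nat_lit 0) (p (nat_lit 0x40212) (nat_lit 0) (p (nat_lit 0x28192) (nat_lit 0) (p (nat_lit 0x30092) (nat_lit 0) (p (nat_lit 0x18012) (nat_lit 0) pn)))))))))))))))))))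 :=
  Cl.node (nat_lit 0x119) (nat_lit 2) (by decide +kernel) (ClAll.succ (ClAll.succ ClAll.zero n58) n59)

def n68 : Cl (O (nat_lit 4)) (R (nat_lit 139473))
    (p (nat_lit 0xd1) (nat_lit 1) (p (nat_lit 0x81) (nat_lit 0) (p (nat_lit 0x41) (nat_lit 1) (p (nat_lit 0x109080788869a) (nat_lit 0) (p (nat_lit 0x108878706861a) (nat_lit 0) (p (nat_lit 0x8000000000000080687858a) (nat_lit 0) (p (nat_lit 0x8000000000000078605850a) (nat_lit 0) (p (nat_lit 0x10605868482) (nat_lit 0) (p (nat_lit 0x10585048402) (nat_lit 0) (p (nat_lit 0x16000c) (nat_lit 0) (p (nat_lit 0x160004) (nat_lit 0) (p (nat_lit 0x60592) (nat_lit 0) (p (nat_lit 0x48512) (nat_lit 0) (p (nat_lit 0x50392) (nat_lit 0) (p (nat_lit 0x38312) (nat_lit 0) (p (nat_lit 0x40212) (nat_lit 0) (p (nat_lit 0x28192) (nat_lit 0) (p (nat_lit 0x30092) (nat_lit 0) (p (nat_lit 0x18012) (nat_lit 0) pn))))))))))))))))))) :=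
  Cl.node (nat_lit 0x111) (nat_lit 2) (by decide +kernel) (ClAll.succ (ClAll.succ ClAll.zero n60) s53)

def n69 : Cl (O (nat_lit 4)) (R (nat_lit 139473))
    (p (nat_lit 0xc1) (nat_lit 0) (p (nat_lit 0x81) (nat_lit 1) (p (nat_lit 0x41) (nat_lit 1) (p (nat_lit 0x109080788869a) (nat_lit 0) (p (nat_lit 0x108878706861a) (nat_lit 0) (p (nat_lit 0x8000000000000080687858a) (nat_lit 0) (p (nat_lit 0x8000000000000078605850a) (nat_lit 0) (p (nat_lit 0x10605868482) (nat_lit 0) (p (nat_lit 0x10585048402) (nat_lit 0) (p (nat_lit 0x16000c) (nat_lit 0) (p (nat_lit 0x160004) (nat_lit 0) (p (nat_lit 0x60592) (nat_lit 0) (p (nat_lit 0x48512) (nat_lit 0) (p (nat_lit 0x50392) (nat_lit 0) (p (nat_lit 0x38312) (nat_lit 0) (p (nat_lit 0x40212) (nat_lit 0) (p (nat_lit 0x28192) (nat_lit 0) (p (nat_lit 0x30092) (nat_lit 0) (p (nat_lit 0x18012) (nat_lit 0) pn))))))))))))))))))) :=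
  Cl.node (nat_lit 0x119) (nat_lit 2) (by decide +kernel) (ClAll.succ (ClAll.succ ClAll.zero n61) n62)

def n70 : Cl (O (nat_lit 4)) (R (nat_lit 139473))
    (p (nat_lit 0xc1) (nat_lit 1) (p (nat_lit 0x81) (nat_lit 1) (p (nat_lit 0x41) (nat_lit 1) (p (nat_lit 0x109080788869a) (nat_lit 0) (p (nat_lit 0x108878706861a) (nat_lit 0) (p (nat_lit 0x8000000000000080687858a) (nat_lit 0) (p (nat_lit 0x8000000000000078605850a) (nat_lit 0) (p (nat_lit 0x10605868482) (nat_lit 0) (p (nat_lit 0x10585048402) (nat_lit 0) (p (nat_lit 0x16000c) (nat_lit 0) (p (nat_lit 0x160004) (nat_lit 0) (p (nat_lit 0x60592) (nat_lit 0) (p (nat_lit 0x48512) (nat_lit 0) (p (nat_lit 0x50392) (nat_lit 0) (p (nat_lit 0x38312) (nat_lit 0) (p (nat_lit 0x40212) (nat_lit 0) (p (nat_lit 0x28192) (nat_lit 0) (p (nat_lit 0x30092) (nat_lit 0) (p (nat_lit 0x18012) (nat_lit 0) pn))))))))))))))))))) :=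
  Cl.node (nat_lit 0x101) (nat_lit 2) (by decide +kernel) (ClAll.succ (ClAll.succ ClAll.zero n63) s78)

def n71 : Cl (O (nat_lit 4)) (R (nat_lit 139473))
    (p (nat_lit 0x89) (nat_lit 0) (p (nat_lit 0x41) (nat_lit 0) (p (nat_lit 0x109080788869a) (nat_lit 0) (p (nat_lit 0x108878706861a) (nat_lit 0) (p (nat_lit 0x8000000000000080687858a) (nat_lit 0) (p (nat_lit 0x8000000000000078605850a) (nat_lit 0) (p (nat_lit 0x10605868482) (nat_lit 0) (p (nat_lit 0x10585048402) (nat_lit 0) (p (nat_lit 0x16000c) (nat_lit 0) (p (nat_lit 0x160004) (nat_lit 0) (p (nat_lit 0x60592) (nat_lit 0) (p (nat_lit 0x48512) (nat_lit 0) (p (nat_lit 0x50392) (nat_lit 0) (p (nat_lit 0x38312) (nat_lit 0) (p (nat_lit 0x40212) (nat_lit 0) (p (nat_lit 0x28192) (nat_lit 0) (p (nat_lit 0x30092) (nat_lit 0) (p (nat_lit 0x18012) (nat_lit 0) pn)))))))))))))))))) :=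
  Cl.node (nat_lit 0xd1) (nat_lit 2) (by decide +kernel) (ClAll.succ (ClAll.succ ClAll.zero n64) n65)

def n72 : Cl (O (nat_lit 4)) (R (nat_lit 139473))
    (p (nat_lit 0x89) (nat_lit 1) (p (nat_lit 0x41) (nat_lit 0) (p (nat_lit 0x109080788869a) (nat_lit 0) (p (nat_lit 0x108878706861a) (nat_lit 0) (p (nat_lit 0x8000000000000080687858a) (nat_lit 0) (p (nat_lit 0x8000000000000078605850a) (nat_lit 0) (p (nat_lit 0x10605868482) (nat_lit 0) (p (nat_lit 0x10585048402) (nat_lit 0) (p (nat_lit 0x16000c) (nat_lit 0) (p (nat_lit 0x160004) (nat_lit 0) (p (nat_lit 0x60592) (nat_lit 0) (p (nat_lit 0x48512) (nat_lit 0) (p (nat_lit 0x50392) (nat_lit 0) (p (nat_lit 0x38312) (nat_lit 0) (p (nat_lit 0x40212) (nat_lit 0) (p (nat_lit 0x28192) (nat_lit 0) (p (nat_lit 0x30092) (nat_lit 0) (p (nat_lit 0x18012) (nat_lit 0) pn)))))))))))))))))) :=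
  Cl.node (nat_lit 0xc9) (nat_lit 2) (by decide +kernel) (ClAll.succ (ClAll.succ ClAll.zero n66) s24)

def n73 : Cl (O (nat_lit 4)) (R (nat_lit 139473))
    (p (nat_lit 0x81) (nat_lit 0) (p (nat_lit 0x41) (nat_lit 1) (p (nat_lit 0x109080788869a) (nat_lit 0) (p (nat_lit 0x108878706861a) (nat_lit 0) (p (nat_lit 0x8000000000000080687858a) (nat_lit 0) (p (nat_lit 0x8000000000000078605850a) (nat_lit 0) (p (nat_lit 0x10605868482) (nat_lit 0) (p (nat_lit 0x10585048402) (nat_lit 0) (p (nat_lit 0x16000c) (nat_lit 0) (p (nat_lit 0x160004) (nat_lit 0) (p (nat_lit 0x60592) (nat_lit 0) (p (nat_lit 0x48512) (nat_lit 0) (p (nat_lit 0x50392) (nat_lit 0) (p (nat_lit 0x38312) (nat_lit 0) (p (nat_lit 0x40212) (nat_lit 0) (p (nat_lit 0x28192) (nat_lit 0) (p (nat_lit 0x30092) (nat_lit 0) (p (nat_lit 0x18012) (nat_lit 0) pn)))))))))))))))))) :=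
  Cl.node (nat_lit 0xd1) (nat_lit 2) (by decide +kernel) (ClAll.succ (ClAll.succ ClAll.zero n67) n68)

def n74 : Cl (O (nat_lit 4)) (R (nat_lit 139473))
    (p (nat_lit 0x81) (nat_lit 1) (p (nat_lit 0x41) (nat_lit 1) (p (nat_lit 0x109080788869a) (nat_lit 0) (p (nat_lit 0x108878706861a) (nat_lit 0) (p (nat_lit 0x8000000000000080687858a) (nat_lit 0) (p (nat_lit 0x8000000000000078605850a) (nat_lit 0) (p (nat_lit 0x10605868482) (nat_lit 0) (p (nat_lit 0x10585048402) (nat_lit 0) (p (nat_lit 0x16000c) (nat_lit 0) (p (nat_lit 0x160004) (nat_lit 0) (p (nat_lit 0x60592) (nat_lit 0) (p (nat_lit 0x48512) (nat_lit 0) (p (nat_lit 0x50392) (nat_lit 0) (p (nat_lit 0x38312) (nat_lit 0) (p (nat_lit 0x40212) (nat_lit 0) (p (nat_lit 0x28192) (nat_lit 0) (p (nat_lit 0x30092) (nat_lit 0) (p (nat_lit 0x18012) (nat_lit 0) pn)))))))))))))))))) :=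
  Cl.node (nat_lit 0xc1) (nat_lit 2) (by decide +kernel) (ClAll.succ (ClAll.succ ClAll.zero n69) n70)

def n75 : Cl (O (nat_lit 4)) (R (nat_lit 139473))
    (p (nat_lit 0x41) (nat_lit 0) (p (nat_lit 0x109080788869a) (nat_lit 0) (p (nat_lit 0x108878706861a) (nat_lit 0) (p (nat_lit 0x8000000000000080687858a) (nat_lit 0) (p (nat_lit 0x8000000000000078605850a) (nat_lit 0) (p (nat_lit 0x10605868482) (nat_lit 0) (p (nat_lit 0x10585048402) (nat_lit 0) (p (nat_lit 0x16000c) (nat_lit 0) (p (nat_lit 0x160004) (nat_lit 0) (p (nat_lit 0x60592) (nat_lit 0) (p (nat_lit 0x48512) (nat_lit 0) (p (nat_lit 0x50392) (nat_lit 0) (p (nat_lit 0x38312) (nat_lit 0) (p (nat_lit 0x40212) (nat_lit 0) (p (nat_lit 0x28192) (nat_lit 0) (p (nat_lit 0x30092) (nat_lit 0) (p (nat_lit 0x18012) (nat_lit 0) pn))))))))))))))))) :=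
  Cl.node (nat_lit 0x89) (nat_lit 2) (by decide +kernel) (ClAll.succ (ClAll.succ ClAll.zero n71) n72)

def n76 : Cl (O (nat_lit 4)) (R (nat_lit 139473))
    (p (nat_lit 0x41) (nat_lit 1) (p (nat_lit 0x109080788869a) (nat_lit 0) (p (nat_lit 0x108878706861a) (nat_lit 0) (p (nat_lit 0x8000000000000080687858a) (nat_lit 0) (p (nat_lit 0x8000000000000078605850a) (nat_lit 0) (p (nat_lit 0x10605868482) (nat_lit 0) (p (nat_lit 0x10585048402) (nat_lit 0) (p (nat_lit 0x16000c) (nat_lit 0) (p (nat_lit 0x160004) (nat_lit 0) (p (nat_lit 0x60592) (nat_lit 0) (p (nat_lit 0x48512) (nat_lit 0) (p (nat_lit 0x50392) (nat_lit 0) (p (nat_lit 0x38312) (nat_lit 0) (p (nat_lit 0x40212) (nat_lit 0) (p (nat_lit 0x28192) (nat_lit 0) (p (nat_lit 0x30092) (nat_lit 0) (p (nat_lit 0x18012) (nat_lit 0) pn))))))))))))))))) :=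
  Cl.node (nat_lit 0x81) (nat_lit 2) (by decide +kernel) (ClAll.succ (ClAll.succ ClAll.zero n73) n74)

def n77 : Cl (O (nat_lit 4)) (R (nat_lit 139473))
    (p (nat_lit 0x109080788869a) (nat_lit 0) (p (nat_lit 0x108878706861a) (nat_lit 0) (p (nat_lit 0x8000000000000080687858a) (nat_lit 0) (p (nat_lit 0x8000000000000078605850a) (nat_lit 0) (p (nat_lit 0x10605868482) (nat_lit 0) (p (nat_lit 0x10585048402) (nat_lit 0) (p (nat_lit 0x16000c) (nat_lit 0) (p (nat_lit 0x160004) (nat_lit 0) (p (nat_lit 0x60592) (nat_lit 0) (p (nat_lit 0x48512) (nat_lit 0) (p (nat_lit 0x50392) (nat_lit 0) (p (nat_lit 0x38312) (nat_lit 0) (p (nat_lit 0x40212) (nat_lit 0) (p (nat_lit 0x28192) (nat_lit 0) (p (nat_lit 0x30092) (nat_lit 0) (p (nat_lit 0x18012) (nat_lit 0) pn)))))))))))))))) :=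
  Cl.node (nat_lit 0x41) (nat_lit 2) (by decide +kernel) (ClAll.succ (ClAll.succ ClAll.zero n75) n76)

def n78 : Cl (O (nat_lit 4)) (R (nat_lit 139473))
    (p (nat_lit 0x108878706861a) (nat_lit 0) (p (nat_lit 0x8000000000000080687858a) (nat_lit 0) (p (nat_lit 0x8000000000000078605850a) (nat_lit 0) (p (nat_lit 0x10605868482) (nat_lit 0) (p (nat_lit 0x10585048402) (nat_lit 0) (p (nat_lit 0x16000c) (nat_lit 0) (p (nat_lit 0x160004) (nat_lit 0) (p (nat_lit 0x60592) (nat_lit 0) (p (nat_lit 0x48512) (nat_lit 0) (p (nat_lit 0x50392) (nat_lit 0) (p (nat_lit 0x38312) (nat_lit 0) (p (nat_lit 0x40212) (nat_lit 0) (p (nat_lit 0x28192) (nat_lit 0) (p (nat_lit 0x30092) (nat_lit 0) (p (nat_lit 0x18012) (nat_lit 0) pn))))))))))))))) :=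
  Cl.node (nat_lit 0x109080788869a) (nat_lit 1) (by decide +kernel) (ClAll.succ ClAll.zero n77)

def n79 : Cl (O (nat_lit 4)) (R (nat_lit 139473))
    (p (nat_lit 0x8000000000000080687858a) (nat_lit 0) (p (nat_lit 0x8000000000000078605850a) (nat_lit 0) (p (nat_lit 0x10605868482) (nat_lit 0) (p (nat_lit 0x10585048402) (nat_lit 0) (p (nat_lit 0x16000c) (nat_lit 0) (p (nat_lit 0x160004) (nat_lit 0) (p (nat_lit 0x60592) (nat_lit 0) (p (nat_lit 0x48512) (nat_lit 0) (p (nat_lit 0x50392) (nat_lit 0) (p (nat_lit 0x38312) (nat_lit 0) (p (nat_lit 0x40212) (nat_lit 0) (p (nat_lit 0x28192) (nat_lit 0) (p (nat_lit 0x30092) (nat_lit 0) (p (nat_lit 0x18012) (nat_lit 0) pn)))))))))))))) :=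
  Cl.node (nat_lit 0x108878706861a) (nat_lit 1) (by decide +kernel) (ClAll.succ ClAll.zero n78)

def n80 : Cl (O (nat_lit 4)) (R (nat_lit 139473))
    (p (nat_lit 0x8000000000000078605850a) (nat_lit 0) (p (nat_lit 0x10605868482) (nat_lit 0) (p (nat_lit 0x10585048402) (nat_lit 0) (p (nat_lit 0x16000c) (nat_lit 0) (p (nat_lit 0x160004) (nat_lit 0) (p (nat_lit 0x60592) (nat_lit 0) (p (nat_lit 0x48512) (nat_lit 0) (p (nat_lit 0x50392) (nat_lit 0) (p (nat_lit 0x38312) (nat_lit 0) (p (nat_lit 0x40212) (nat_lit 0) (p (nat_lit 0x28192) (nat_lit 0) (p (nat_lit 0x30092) (nat_lit 0) (p (nat_lit 0x18012) (nat_lit 0) pn))))))))))))) :=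
  Cl.node (nat_lit 0x8000000000000080687858a) (nat_lit 1) (by decide +kernel) (ClAll.succ ClAll.zero n79)

def n81 : Cl (O (nat_lit 4)) (R (nat_lit 139473))
    (p (nat_lit 0x10605868482) (nat_lit 0) (p (nat_lit 0x10585048402) (nat_lit 0) (p (nat_lit 0x16000c) (nat_lit 0) (p (nat_lit 0x160004) (nat_lit 0) (p (nat_lit 0x60592) (nat_lit 0) (p (nat_lit 0x48512) (nat_lit 0) (p (nat_lit 0x50392) (nat_lit 0) (p (nat_lit 0x38312) (nat_lit 0) (p (nat_lit 0x40212) (nat_lit 0) (p (nat_lit 0x28192) (nat_lit 0) (p (nat_lit 0x30092) (nat_lit 0) (p (nat_lit 0x18012) (nat_lit 0) pn)))))))))))) :=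
  Cl.node (nat_lit 0x8000000000000078605850a) (nat_lit 1) (by decide +kernel) (ClAll.succ ClAll.zero n80)

def n82 : Cl (O (nat_lit 4)) (R (nat_lit 139473))
    (p (nat_lit 0x10585048402) (nat_lit 0) (p (nat_lit 0x16000c) (nat_lit 0) (p (nat_lit 0x160004) (nat_lit 0) (p (nat_lit 0x60592) (nat_lit 0) (p (nat_lit 0x48512) (nat_lit 0) (p (nat_lit 0x50392) (nat_lit 0) (p (nat_lit 0x38312) (nat_lit 0) (p (nat_lit 0x40212) (nat_lit 0) (p (nat_lit 0x28192) (nat_lit 0) (p (nat_lit 0x30092) (nat_lit 0) (p (nat_lit 0x18012) (nat_lit 0) pn))))))))))) :=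
  Cl.node (nat_lit 0x10605868482) (nat_lit 1) (by decide +kernel) (ClAll.succ ClAll.zero n81)

def n83 : Cl (O (nat_lit 4)) (R (nat_lit 139473))
    (p (nat_lit 0x16000c) (nat_lit 0) (p (nat_lit 0x160004) (nat_lit 0) (p (nat_lit 0x60592) (nat_lit 0) (p (nat_lit 0x48512) (nat_lit 0) (p (nat_lit 0x50392) (nat_lit 0) (p (nat_lit 0x38312) (nat_lit 0) (p (nat_lit 0x40212) (nat_lit 0) (p (nat_lit 0x28192) (nat_lit 0) (p (nat_lit 0x30092) (nat_lit 0) (p (nat_lit 0x18012) (nat_lit 0) pn)))))))))) :=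
  Cl.node (nat_lit 0x10585048402) (nat_lit 1) (by decide +kernel) (ClAll.succ ClAll.zero n82)

def n84 : Cl (O (nat_lit 4)) (R (nat_lit 139473))
    (p (nat_lit 0x160004) (nat_lit 0) (p (nat_lit 0x60592) (nat_lit 0) (p (nat_lit 0x48512) (nat_lit 0) (p (nat_lit 0x50392) (nat_lit 0) (p (nat_lit 0x38312) (nat_lit 0) (p (nat_lit 0x40212) (nat_lit 0) (p (nat_lit 0x28192) (nat_lit 0) (p (nat_lit 0x30092) (nat_lit 0) (p (nat_lit 0x18012) (nat_lit 0) pn))))))))) :=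
  Cl.node (nat_lit 0x16000c) (nat_lit 2) (by decide +kernel) (ClAll.succ (ClAll.succ ClAll.zero n83) s79)

def n85 : Cl (O (nat_lit 4)) (R (nat_lit 139473))
    (p (nat_lit 0x60592) (nat_lit 0) (p (nat_lit 0x48512) (nat_lit 0) (p (nat_lit 0x50392) (nat_lit 0) (p (nat_lit 0x38312) (nat_lit 0) (p (nat_lit 0x40212) (nat_lit 0) (p (nat_lit 0x28192) (nat_lit 0) (p (nat_lit 0x30092) (nat_lit 0) (p (nat_lit 0x18012) (nat_lit 0) pn)))))))) :=
  Cl.node (nat_lit 0x160004) (nat_lit 2) (by decide +kernel) (ClAll.succ (ClAll.succ ClAll.zero n84) s80)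

def n86 : Cl (O (nat_lit 4)) (R (nat_lit 139473))
    (p (nat_lit 0x48512) (nat_lit 0) (p (nat_lit 0x50392) (nat_lit 0) (p (nat_lit 0x38312) (nat_lit 0) (p (nat_lit 0x40212) (nat_lit 0) (p (nat_lit 0x28192) (nat_lit 0) (p (nat_lit 0x30092) (nat_lit 0) (p (nat_lit 0x18012) (nat_lit 0) pn))))))) :=
  Cl.node (nat_lit 0x60592) (nat_lit 1) (by decide +kernel) (ClAll.succ ClAll.zero n85)

def n87 : Cl (O (nat_lit 4)) (R (nat_lit 139473))
    (p (nat_lit 0x50392) (nat_lit 0) (p (nat_lit 0x38312) (nat_lit 0) (p (nat_lit 0x40212) (nat_lit 0) (p (nat_lit 0x28192) (nat_lit 0) (p (nat_lit 0x30092) (nat_lit 0) (p (nat_lit 0x18012) (nat_lit 0) pn)))))) :=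
  Cl.node (nat_lit 0x48512) (nat_lit 1) (by decide +kernel) (ClAll.succ ClAll.zero n86)

def n88 : Cl (O (nat_lit 4)) (R (nat_lit 139473))
    (p (nat_lit 0x38312) (nat_lit 0) (p (nat_lit 0x40212) (nat_lit 0) (p (nat_lit 0x28192) (nat_lit 0) (p (nat_lit 0x30092) (nat_lit 0) (p (nat_lit 0x18012) (nat_lit 0) pn))))) :=
  Cl.node (nat_lit 0x50392) (nat_lit 1) (by decide +kernel) (ClAll.succ ClAll.zero n87)

def n89 : Cl (O (nat_lit 4)) (R (nat_lit 139473))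
    (p (nat_lit 0x40212) (nat_lit 0) (p (nat_lit 0x28192) (nat_lit 0) (p (nat_lit 0x30092) (nat_lit 0) (p (nat_lit 0x18012) (nat_lit 0) pn)))) :=
  Cl.node (nat_lit 0x38312) (nat_lit 1) (by decide +kernel) (ClAll.succ ClAll.zero n88)

def n90 : Cl (O (nat_lit 4)) (R (nat_lit 139473))
    (p (nat_lit 0x28192) (nat_lit 0) (p (nat_lit 0x30092) (nat_lit 0) (p (nat_lit 0x18012) (nat_lit 0) pn))) :=
  Cl.node (nat_lit 0x40212) (nat_lit 1) (by decide +kernel) (ClAll.succ ClAll.zero n89)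

def n91 : Cl (O (nat_lit 4)) (R (nat_lit 139473))
    (p (nat_lit 0x30092) (nat_lit 0) (p (nat_lit 0x18012) (nat_lit 0) pn)) :=
  Cl.node (nat_lit 0x28192) (nat_lit 1) (by decide +kernel) (ClAll.succ ClAll.zero n90)

def n92 : Cl (O (nat_lit 4)) (R (nat_lit 139473))
    (p (nat_lit 0x18012) (nat_lit 0) pn) :=
  Cl.node (nat_lit 0x30092) (nat_lit 1) (by decide +kernel) (ClAll.succ ClAll.zero n91)

def n93 : Cl (O (nat_lit 4)) (R (nat_lit 139473))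
    pn :=
  Cl.node (nat_lit 0x18012) (nat_lit 1) (by decide +kernel) (ClAll.succ ClAll.zero n92)

theorem top : Cl (O (nat_lit 4)) (R (nat_lit 139473)) pn := n93

end Pool.Agent.Gen.F5.X123C2Dm4
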